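import Mathlib

/-!
# Relations between the factors over a field: definitions
-/

set_option autoImplicit false

namespace Pool.Agent.H845.Orb

open NumberField Module Polynomial

open Classical in
/-- The monic irreducible factors over `E` of the minimal polynomial of the algebraic number `x`. -/
noncomputable def factors (E : Type) [Field E] [NumberField E] {F : Type} [Field F]
    [NumberField F] (x : F) : Finset E[X] :=
  (UniqueFactorizationMonoid.normalizedFactors
    ((minpoly ℚ x).map (algebraMap ℚ E))).toFinset

/-- The polynomial `X - x`. -/
noncomputable def lin {E : Type} [Field E] (x : E) : E[X] := X - C x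

/-- The quotient of `x` and its complex conjugate. -/
noncomputable def quo {E : Type} [Field E] [NumberField E] [IsCMField E] (x : E) : E :=
  x / IsCMField.complexConj E x

/-- The polynomial with the complex conjugate coefficients. -/
noncomputable def conjPoly {E : Type} [Field E] [NumberField E] [IsCMField E] (g : E[X]) : E[X] :=
  g.map (IsCMField.complexConj E : E →+* E)

/-- The quotient of the constant term of `g` and its complex conjugate. -/
noncomputable def ratio {E : Type} [Field E] [NumberField E] [IsCMField E] (g : E[X]) : E :=
  quo (g.coeff 0)

/-- The product of the powers with the exponents `n g` of the quotients `ratio g`, where `g` runs over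
the monic irreducible factors over `E` of the minimal polynomial of `x`. -/
noncomputable def prodRatio {E : Type} [Field E] [NumberField E] [IsCMField E] {F : Type} [Field F]
    [NumberField F] (x : F) (n : E[X] → ℤ) : E :=
  ∏ g ∈ factors E x, ratio g ^ n g

/-- The number `x` of the CM field `E` is free from the numbers `π k`: no positive power of `x`
divided by its complex conjugate is a product of powers of the numbers `ratio g`, where `g` runs over
the irreducible factors over the field `E` of the minimal polynomials of all the numbers `π k`, the
factors `X - x` and `X - conj x` of the minimal polynomial of `π i` excepted. -/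
def IsFreeAt {I : Type} [Fintype I] {K : I → Type} [∀ i, Field (K i)] [∀ i, NumberField (K i)]
    (π : ∀ i, K i) (i : I) {E : Type} [Field E] [NumberField E] [IsCMField E] (x : E) : Prop :=
  ∀ (m : ℕ) (n : I → E[X] → ℤ), 0 < m → n i (lin x) = 0 →
    n i (lin (IsCMField.complexConj E x)) = 0 → quo x ^ m ≠ ∏ k, prodRatio (π k) (n k)

/-- The number `π i` of the CM field `K i` is free from the numbers `π k`: no positive power of `π i`
divided by its complex conjugate is a product of powers of the numbers `ratio g`, where `g` runs over
the irreducible factors over the field `K i` of the minimal polynomials of all the numbers `π k`, the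
factors `X - π i` and `X - conj (π i)` excepted. -/
def IsFree {I : Type} [Fintype I] {K : I → Type} [∀ i, Field (K i)] [∀ i, NumberField (K i)]
    [∀ i, IsCMField (K i)] (π : ∀ i, K i) (i : I) : Prop :=
  IsFreeAt π i (π i)

end Pool.Agent.H845.Orb
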