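import Mathlib
import Pool.Agent.H845.Orb.Defs
import Pool.Graph.R_seed8.TH170.MF.Field

/-!
# The factors over a field of a minimal polynomial
-/

set_option autoImplicit false
set_option linter.unusedSectionVars false
set_option linter.unusedVariables false

namespace Pool.Agent.H845.Orb

open NumberField Module Polynomial Pool.Agent.TH170.MF
open scoped IntermediateField

section

variable {E : Type} [Field E] [NumberField E] (φ : E →+* ℂ)

/-- The minimal polynomial over `E`. -/
noncomputable def mp (z : ℂ) : E[X] := @minpoly E ℂ _ _ φ.toAlgebra z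

theorem isIntegral_phi {z : ℂ} (hz : IsIntegral ℚ z) : @IsIntegral E ℂ _ _ φ.toAlgebra z := by
  let _ := φ.toAlgebra
  have : IsScalarTower ℚ E ℂ := inferInstance
  exact hz.tower_top

theorem eval_mp (z : ℂ) : eval₂ φ z (mp φ z) = 0 := by
  let _ := φ.toAlgebra
  exact minpoly.aeval E z

theorem mp_monic {z : ℂ} (hz : IsIntegral ℚ z) : (mp φ z).Monic := by
  let _ := φ.toAlgebra
  exact minpoly.monic (isIntegral_phi φ hz)

theorem mp_irreducible {z : ℂ} (hz : IsIntegral ℚ z) : Irreducible (mp φ z) := by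
  let _ := φ.toAlgebra
  exact minpoly.irreducible (isIntegral_phi φ hz)

theorem mp_dvd {z : ℂ} {g : E[X]} (hg : eval₂ φ z g = 0) : mp φ z ∣ g := by
  let _ := φ.toAlgebra
  exact minpoly.dvd E z hg

theorem eq_mp {z : ℂ} {g : E[X]} (hg : eval₂ φ z g = 0) (hm : g.Monic) (hi : Irreducible g) :
    g = mp φ z := by
  let _ := φ.toAlgebra
  exact minpoly.eq_of_irreducible_of_monic hi hg hm

theorem mp_self (x : E) : mp φ (φ x) = X - C x := by
  refine (eq_mp φ ?_ (monic_X_sub_C x) (irreducible_X_sub_C x)).symm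
  simp

variable {F : Type} [Field F] [NumberField F] {x : F}

/-- Two embeddings that agree on a generator are equal. -/
theorem eq_of_gen {ψ₀ ψ₁ : F →+* ℂ} (hx : ℚ⟮x⟯ = ⊤) (h : ψ₀ x = ψ₁ x) : ψ₀ = ψ₁ := by
  have h1 : Algebra.adjoin ℚ {x} = ⊤ := by
    rw [← IntermediateField.adjoin_simple_toSubalgebra_of_isAlgebraic
      (Algebra.IsAlgebraic.isAlgebraic x), hx, IntermediateField.top_toSubalgebra]
  have h2 : RingHom.equivRatAlgHom F ℂ ψ₀ = RingHom.equivRatAlgHom F ℂ ψ₁ := by
    apply AlgHom.ext_of_adjoin_eq_top h1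
    intro y hy
    rw [Set.mem_singleton_iff] at hy
    rw [hy]
    exact h
  exact (RingHom.equivRatAlgHom F ℂ).injective h2

theorem isIntegral_emb (ψ : F →+* ℂ) (x : F) : IsIntegral ℚ (ψ x) := by
  have h : IsIntegral ℚ x := Algebra.IsIntegral.isIntegral x
  exact h.map (RingHom.equivRatAlgHom F ℂ ψ)

theorem map_ne_zero' (x : F) : (minpoly ℚ x).map (algebraMap ℚ E) ≠ 0 :=
  (Polynomial.map_ne_zero_iff (algebraMap ℚ E).injective).2
    (minpoly.ne_zero (Algebra.IsIntegral.isIntegral x))

theorem eval_map_emb (ψ : F →+* ℂ) (x : F) :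
    eval₂ φ (ψ x) ((minpoly ℚ x).map (algebraMap ℚ E)) = 0 := by
  rw [eval₂_map]
  have h1 : φ.comp (algebraMap ℚ E) = ψ.comp (algebraMap ℚ F) := Subsingleton.elim _ _
  rw [h1, ← hom_eval₂]
  have h2 : eval₂ (algebraMap ℚ F) x (minpoly ℚ x) = 0 := minpoly.aeval ℚ x
  rw [h2, map_zero]

theorem mem_factors_iff {g : E[X]} : g ∈ factors E x ↔
    g.Monic ∧ Irreducible g ∧ g ∣ (minpoly ℚ x).map (algebraMap ℚ E) := by
  classical
  unfold factors
  rw [Multiset.mem_toFinset]
  constructor
  · intro h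
    have h1 := UniqueFactorizationMonoid.irreducible_of_normalized_factor g h
    refine ⟨?_, h1, UniqueFactorizationMonoid.dvd_of_mem_normalizedFactors h⟩
    have h2 := UniqueFactorizationMonoid.normalize_normalized_factor g h
    rw [← h2]
    exact monic_normalize h1.ne_zero
  · rintro ⟨h1, h2, h3⟩
    obtain ⟨q, hq, hgq⟩ := UniqueFactorizationMonoid.exists_mem_normalizedFactors_of_dvd
      (map_ne_zero' x) h2 h3
    have h4 := UniqueFactorizationMonoid.normalize_normalized_factor q hq
    have h5 : normalize g = normalize q := normalize_eq_normalize_iff_associated.2 hgq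
    rw [h1.normalize_eq_self, h4] at h5
    rwa [h5]

theorem mp_mem_factors (ψ : F →+* ℂ) : mp φ (ψ x) ∈ factors E x :=
  mem_factors_iff.2 ⟨mp_monic φ (isIntegral_emb ψ x), mp_irreducible φ (isIntegral_emb ψ x),
    mp_dvd φ (eval_map_emb φ ψ x)⟩

open Classical in
/-- The constant term of a factor is, up to sign, a product of conjugates. -/
theorem coeff_zero_eq (hx : ℚ⟮x⟯ = ⊤) {g : E[X]} (hg : g ∈ factors E x) :
    φ (g.coeff 0) = (-1) ^ g.natDegree *
      ∏ ψ : F →+* ℂ with mp φ (ψ x) = g, ψ x := by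
  obtain ⟨h1, h2, h3⟩ := mem_factors_iff.1 hg
  have hsp : (g.map φ).Splits := IsAlgClosed.splits _
  have hmon : (g.map φ).Monic := h1.map φ
  have hsep : (g.map φ).Separable := h2.separable.map
  have hnd : (g.map φ).roots.Nodup := nodup_roots hsep
  have hc := hsp.coeff_zero_eq_prod_roots_of_monic hmon
  rw [coeff_map, natDegree_map] at hc
  rw [hc]
  congr 1
  have h4 : (g.map φ).roots =
      (Finset.univ.filter fun ψ : F →+* ℂ => mp φ (ψ x) = g).val.map fun ψ => ψ x := by
    refine Multiset.Nodup.ext hnd ?_ |>.2 fun z => ?_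
    · refine Multiset.Nodup.map_on ?_ (Finset.nodup _)
      intro ψ _ ψ' _ h
      exact eq_of_gen hx h
    · rw [mem_roots hmon.ne_zero, IsRoot.def, eval_map, Multiset.mem_map]
      constructor
      · intro hz
        have h5 : z ∈ (minpoly ℚ x).rootSet ℂ := by
          rw [mem_rootSet]
          refine ⟨minpoly.ne_zero (Algebra.IsIntegral.isIntegral x), ?_⟩
          obtain ⟨h, hh⟩ := h3
          have h6 : eval₂ φ z ((minpoly ℚ x).map (algebraMap ℚ E)) = 0 := by
            rw [hh, eval₂_mul, hz, zero_mul]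
          rw [eval₂_map] at h6
          rw [aeval_def, ← h6]
          congr 1
          exact Subsingleton.elim _ _
        rw [← NumberField.Embeddings.range_eval_eq_rootSet_minpoly F ℂ x] at h5
        obtain ⟨ψ, hψ⟩ := h5
        refine ⟨ψ, ?_, hψ⟩
        rw [Finset.mem_val, Finset.mem_filter]
        refine ⟨Finset.mem_univ _, ?_⟩
        have hψ' : ψ x = z := hψ
        rw [hψ']
        exact (eq_mp φ hz h1 h2).symm
      · rintro ⟨ψ, hψ, rfl⟩
        rw [Finset.mem_val, Finset.mem_filter] at hψ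
        rw [← hψ.2]
        exact eval_mp φ _
  rw [h4]
  rfl

/-- The stabilizer of an embedding acts transitively on the embeddings belonging to a factor. -/
theorem exists_aut_of_mp {ψ ψ' : F →+* ℂ} (hx : ℚ⟮x⟯ = ⊤) (h : mp φ (ψ x) = mp φ (ψ' x)) :
    ∃ σ : ℂ ≃+* ℂ, (σ : ℂ →+* ℂ).comp φ = φ ∧ (σ : ℂ →+* ℂ).comp ψ = ψ' := by
  set g := mp φ (ψ x) with hg
  have hirr : Irreducible g := mp_irreducible φ (isIntegral_emb ψ x)
  have : Fact (Irreducible g) := ⟨hirr⟩
  have hne : g ≠ 0 := hirr.ne_zero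
  let L := AdjoinRoot g
  have : Module.Finite E L := (AdjoinRoot.powerBasis hne).finite
  have : CharZero L := charZero_of_injective_algebraMap (algebraMap E L).injective
  have : FiniteDimensional ℚ L := Module.Finite.trans E L
  have : NumberField L := { to_charZero := inferInstance, to_finiteDimensional := inferInstance }
  let j : L →+* ℂ := AdjoinRoot.lift φ (ψ x) (eval_mp φ _)
  let χ : L →+* ℂ := AdjoinRoot.lift φ (ψ' x) (by rw [h]; exact eval_mp φ _)
  obtain ⟨σ, hσ⟩ := exists_comp_eq L j χ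
  refine ⟨σ, ?_, ?_⟩
  · ext y
    have h1 : σ (j (AdjoinRoot.of g y)) = χ (AdjoinRoot.of g y) :=
      RingHom.congr_fun hσ (AdjoinRoot.of g y)
    have h2 : j (AdjoinRoot.of g y) = φ y := AdjoinRoot.lift_of _
    have h3 : χ (AdjoinRoot.of g y) = φ y := AdjoinRoot.lift_of _
    rw [h2, h3] at h1
    exact h1
  · apply eq_of_gen hx
    have h1 : σ (j (AdjoinRoot.root g)) = χ (AdjoinRoot.root g) :=
      RingHom.congr_fun hσ (AdjoinRoot.root g)
    have h2 : j (AdjoinRoot.root g) = ψ x := AdjoinRoot.lift_root _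
    have h3 : χ (AdjoinRoot.root g) = ψ' x := AdjoinRoot.lift_root _
    rw [h2, h3] at h1
    exact h1

end

end Pool.Agent.H845.Orb
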