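import Mathlib
import Pool.Agent.H845.Orb.Factor
import Pool.Graph.R_pool_sql_team_seeded_1acbe0a2.Y156.P.Defs
import Pool.Graph.R_seed8.Y137.MV.Defs

/-!
# The exact criterion for maximal angle rank
-/

set_option autoImplicit false
set_option linter.unusedSectionVars false
set_option linter.unusedVariables false

namespace Pool.Agent.H845.Orb

open NumberField Module Polynomial Pool.Agent.TH170.MF Pool.Agent.Y156.P
open Pool.Agent.Y137.MV (MaximalAngleRank)
open scoped IntermediateField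

section

variable {p a : ℕ} [hp : Fact p.Prime] {I : Type} [Fintype I] {K : I → Type}
  [∀ i, Field (K i)] [∀ i, NumberField (K i)] [∀ i, IsCMField (K i)]

/-- The embeddings of all fields. -/
abbrev Emb (K : I → Type) [∀ i, Field (K i)] : Type := Σ i, (K i →+* ℂ)

/-- The action on the embeddings. -/
def act (σ : ℂ ≃+* ℂ) : Emb K ≃ Emb K where
  toFun x := ⟨x.1, (σ : ℂ →+* ℂ).comp x.2⟩
  invFun x := ⟨x.1, (σ.symm : ℂ →+* ℂ).comp x.2⟩
  left_inv x := by
    have h1 : (σ.symm : ℂ →+* ℂ).comp ((σ : ℂ →+* ℂ).comp x.2) = x.2 := by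
      ext y
      simp
    exact Sigma.ext rfl (heq_of_eq h1)
  right_inv x := by
    have h1 : (σ : ℂ →+* ℂ).comp ((σ.symm : ℂ →+* ℂ).comp x.2) = x.2 := by
      ext y
      simp
    exact Sigma.ext rfl (heq_of_eq h1)

/-- The complex conjugation on the embeddings. -/
noncomputable def cj (x : Emb K) : Emb K := ⟨x.1, ComplexEmbedding.conjugate x.2⟩

theorem cj_cj (x : Emb K) : cj (cj x) = x :=
  Sigma.ext rfl (heq_of_eq (by ext y; simp [cj]))

/-- The complex conjugation as a permutation. -/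
noncomputable def cjE : Emb K ≃ Emb K where
  toFun := cj
  invFun := cj
  left_inv := cj_cj
  right_inv := cj_cj

theorem conj_comp {F : Type} [Field F] [NumberField F] [IsCMField F] (σ : ℂ ≃+* ℂ)
    (ψ : F →+* ℂ) : (σ : ℂ →+* ℂ).comp (ComplexEmbedding.conjugate ψ) =
      ComplexEmbedding.conjugate ((σ : ℂ →+* ℂ).comp ψ) := by
  ext y
  have h1 := IsCMField.complexEmbedding_complexConj (K := F) ψ y
  have h2 := IsCMField.complexEmbedding_complexConj (K := F) ((σ : ℂ →+* ℂ).comp ψ) y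
  rw [RingHom.comp_apply, ComplexEmbedding.conjugate_coe_eq, ← h1,
    ComplexEmbedding.conjugate_coe_eq, ← h2]
  rfl

theorem act_cj (σ : ℂ ≃+* ℂ) (x : Emb K) : act σ (cj x) = cj (act σ x) :=
  Sigma.ext rfl (heq_of_eq (conj_comp σ x.2))

theorem cj_ne (x : Emb K) : cj x ≠ x := by
  intro h
  have h1 : ComplexEmbedding.conjugate x.2 = x.2 := eq_of_heq (Sigma.mk.inj h).2
  have h2 : ∀ y, IsCMField.complexConj (K x.1) y = y := by
    intro y
    apply x.2.injective
    rw [IsCMField.complexEmbedding_complexConj]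
    exact RingHom.congr_fun h1 y
  exact IsCMField.complexConj_ne_one (K x.1) (AlgEquiv.ext h2)

/-- The conjugates. -/
noncomputable def val (π : ∀ i, K i) (x : Emb K) : ℂ := x.2 (π x.1)

variable {π : ∀ i, K i}

theorem val_act (σ : ℂ ≃+* ℂ) (x : Emb K) : val π (act σ x) = σ (val π x) := rfl

theorem val_cj (x : Emb K) : val π (cj x) = x.2 (IsCMField.complexConj (K x.1) (π x.1)) := by
  rw [IsCMField.complexEmbedding_complexConj]
  rfl

theorem pi_ne_zero (hw : ∀ i, π i * IsCMField.complexConj (K i) (π i) = (p : K i) ^ a) (i : I) :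
    π i ≠ 0 := by
  intro h0
  have h1 := hw i
  rw [h0, zero_mul] at h1
  exact pow_ne_zero a (Nat.cast_ne_zero.2 hp.out.ne_zero) h1.symm

theorem val_ne_zero (h0 : ∀ i, π i ≠ 0) (x : Emb K) : val π x ≠ 0 :=
  (_root_.map_ne_zero _).2 (h0 _)

open Classical in
/-- The value of the product of the quotients. -/
theorem map_ratio (hgen : ∀ i, ℚ⟮π i⟯ = ⊤) (i : I) (φ : K i →+* ℂ) (k : I) {g : (K i)[X]}
    (hg : g ∈ factors (K i) (π k)) :
    φ (ratio g) = ∏ ψ : K k →+* ℂ with mp φ (ψ (π k)) = g,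
      val π ⟨k, ψ⟩ / val π (cj ⟨k, ψ⟩) := by
  unfold ratio quo
  rw [map_div₀, IsCMField.complexEmbedding_complexConj, coeff_zero_eq φ (hgen k) hg, map_mul,
    map_pow, map_neg, map_one, map_prod, mul_div_mul_left _ _ (pow_ne_zero _ (by norm_num)),
    ← Finset.prod_div_distrib]
  rfl

open Classical in
theorem map_prod_ratio (hgen : ∀ i, ℚ⟮π i⟯ = ⊤) (i : I) (φ : K i →+* ℂ)
    (n : I → (K i)[X] → ℤ) :
    φ (∏ k, ∏ g ∈ factors (K i) (π k), ratio g ^ n k g) =
      ∏ x : Emb K, (val π x / val π (cj x)) ^ n x.1 (mp φ (val π x)) := by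
  rw [map_prod, Fintype.prod_sigma]
  refine Finset.prod_congr rfl fun k _ => ?_
  rw [map_prod]
  have h1 : ∏ ψ : K k →+* ℂ, (val π ⟨k, ψ⟩ / val π (cj ⟨k, ψ⟩)) ^ n k (mp φ (val π ⟨k, ψ⟩)) =
      ∏ g ∈ factors (K i) (π k), ∏ ψ : K k →+* ℂ with mp φ (ψ (π k)) = g,
        (val π ⟨k, ψ⟩ / val π (cj ⟨k, ψ⟩)) ^ n k (mp φ (val π ⟨k, ψ⟩)) :=
    (Finset.prod_fiberwise_of_maps_to (fun ψ _ => mp_mem_factors φ ψ) _).symm
  refine Eq.trans ?_ h1.symm
  refine Finset.prod_congr rfl fun g hg => ?_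
  rw [map_zpow₀, map_ratio hgen i φ k hg, ← Finset.prod_zpow]
  refine Finset.prod_congr rfl fun ψ hψ => ?_
  rw [Finset.mem_filter] at hψ
  have h2 : mp φ (val π ⟨k, ψ⟩) = g := hψ.2
  rw [h2]

/-- The products with exponents that are invariant under the complex conjugation. -/
theorem prod_div_cj (h0 : ∀ i, π i ≠ 0) (n : Emb K → ℤ) :
    ∏ x : Emb K, (val π x / val π (cj x)) ^ n x = ∏ x : Emb K, val π x ^ (n x - n (cj x)) := by
  have h1 : ∏ x : Emb K, val π (cj x) ^ n x = ∏ x : Emb K, val π x ^ n (cj x) :=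
    Fintype.prod_equiv cjE _ _ fun x => by
      change _ = val π (cj x) ^ n (cj (cj x))
      rw [cj_cj]
  rw [Finset.prod_congr rfl fun x _ => div_zpow (val π x) (val π (cj x)) (n x),
    Finset.prod_div_distrib, h1, ← Finset.prod_div_distrib]
  exact Finset.prod_congr rfl fun x _ => (zpow_sub₀ (val_ne_zero h0 x) _ _).symm

/-- **Numbers of maximal angle rank are free.** -/
theorem isFree_of_angle (hw : ∀ i, π i * IsCMField.complexConj (K i) (π i) = (p : K i) ^ a)
    (hgen : ∀ i, ℚ⟮π i⟯ = ⊤) (h : MaximalAngleRank (p ^ a) π) (i : I) : IsFree π i := by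
  classical
  intro m n hm h1 h2 heq
  change n i (X - C (π i)) = 0 at h1
  change n i (X - C (IsCMField.complexConj (K i) (π i))) = 0 at h2
  change (π i / IsCMField.complexConj (K i) (π i)) ^ m =
    ∏ k, ∏ g ∈ factors (K i) (π k), ratio g ^ n k g at heq
  have h0 := pi_ne_zero hw
  obtain ⟨φ⟩ : Nonempty (K i →+* ℂ) := inferInstance
  let N : Emb K → ℤ := fun x => n x.1 (mp φ (val π x))
  have h3 := congrArg φ heq
  rw [map_prod_ratio hgen i φ n, prod_div_cj h0 N, map_pow, map_div₀] at h3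
  let z : Emb K := ⟨i, φ⟩
  have h4 : φ (π i) = val π z := rfl
  have h5 : φ (IsCMField.complexConj (K i) (π i)) = val π (cj z) := (val_cj z).symm
  rw [h4, h5] at h3
  have h6 : N z = 0 := by
    change n i (mp φ (φ (π i))) = 0
    rw [mp_self, h1]
  have h7 : N (cj z) = 0 := by
    change n i (mp φ (val π (cj z))) = 0
    rw [val_cj]
    change n i (mp φ (φ (IsCMField.complexConj (K i) (π i)))) = 0
    rw [mp_self, h2]
  let e : Emb K → ℤ := fun x => (if x = z then (m : ℤ) else 0) + (if x = cj z then -(m : ℤ) else 0)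
    - (N x - N (cj x))
  have h8 : ∏ x : Emb K, (x.2 (π x.1)) ^ e x = ((p ^ a : ℕ) : ℂ) ^ (0 : ℤ) := by
    have h9 : ∀ x : Emb K, (x.2 (π x.1)) ^ e x = ((if x = z then val π x ^ m else 1) *
        (if x = cj z then (val π x ^ m)⁻¹ else 1)) / val π x ^ (N x - N (cj x)) := by
      intro x
      change val π x ^ e x = _
      simp only [e]
      rw [zpow_sub₀ (val_ne_zero h0 x), zpow_add₀ (val_ne_zero h0 x)]
      congr 2
      · split_ifs
        · rw [zpow_natCast]
        · rw [zpow_zero]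
      · split_ifs
        · rw [zpow_neg, zpow_natCast]
        · rw [zpow_zero]
    rw [Finset.prod_congr rfl fun x _ => h9 x, Finset.prod_div_distrib, Finset.prod_mul_distrib,
      Finset.prod_ite_eq' Finset.univ z (fun x => val π x ^ m),
      Finset.prod_ite_eq' Finset.univ (cj z) (fun x => (val π x ^ m)⁻¹), if_pos (Finset.mem_univ _),
      if_pos (Finset.mem_univ _), ← h3, zpow_zero, div_pow, ← div_eq_mul_inv, div_self]
    exact div_ne_zero (pow_ne_zero _ (val_ne_zero h0 _)) (pow_ne_zero _ (val_ne_zero h0 _))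
  have h9 := h 0 e h8 i φ
  have h10 : e ⟨i, φ⟩ = m := by
    change e z = m
    simp only [e, if_true]
    rw [if_neg (fun h => cj_ne z h.symm), h6, h7]
    ring
  have h11 : e ⟨i, ComplexEmbedding.conjugate φ⟩ = -m := by
    change e (cj z) = -m
    simp only [e, if_true]
    rw [if_neg (cj_ne z), cj_cj, h6, h7]
    ring
  rw [h10, h11] at h9
  omega

/-- **Free numbers have maximal angle rank.** -/
theorem angle_of_isFree (hw : ∀ i, π i * IsCMField.complexConj (K i) (π i) = (p : K i) ^ a)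
    (hgen : ∀ i, ℚ⟮π i⟯ = ⊤) (h : ∀ i, IsFree π i) : MaximalAngleRank (p ^ a) π := by
  classical
  intro r₀ n₀ hrel₀ i φ
  by_contra hne
  have h0 := pi_ne_zero hw
  let z : Emb K := ⟨i, φ⟩
  -- the odd relation
  let r : Emb K → ℤ := fun x => n₀ x - n₀ (cj x)
  have hodd : ∀ x, r (cj x) = - r x := by
    intro x
    simp only [r, cj_cj]
    ring
  have hz : r z ≠ 0 := sub_ne_zero.2 hne
  have hR : ∏ x : Emb K, val π x ^ r x = 1 := by
    have h1 : ∏ x : Emb K, val π x ^ n₀ x = ((p ^ a : ℕ) : ℂ) ^ r₀ := hrel₀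
    have h2 := congrArg (starRingEnd ℂ) h1
    rw [map_prod, map_zpow₀, Complex.conj_natCast] at h2
    have h3 : ∏ x : Emb K, (starRingEnd ℂ) (val π x ^ n₀ x) =
        ∏ x : Emb K, val π x ^ n₀ (cj x) := by
      refine Fintype.prod_equiv cjE _ _ fun x => ?_
      change _ = val π (cj x) ^ n₀ (cj (cj x))
      rw [cj_cj, map_zpow₀]
      rfl
    rw [h3] at h2
    rw [Finset.prod_congr rfl fun x _ => zpow_sub₀ (val_ne_zero h0 x) (n₀ x) (n₀ (cj x)),
      Finset.prod_div_distrib, h1, h2, div_self]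
    refine zpow_ne_zero _ ?_
    push_cast
    exact pow_ne_zero _ (Nat.cast_ne_zero.2 hp.out.ne_zero)
  -- the stabilizer
  let P : Finset (Equiv.Perm (Emb K)) :=
    Finset.univ.filter fun ρ => ∃ σ : ℂ ≃+* ℂ, (σ : ℂ →+* ℂ).comp φ = φ ∧ ρ = act σ
  have hone : (1 : Equiv.Perm (Emb K)) ∈ P := by
    refine Finset.mem_filter.2 ⟨Finset.mem_univ _, RingEquiv.refl ℂ, rfl, Equiv.ext fun x => ?_⟩
    exact Sigma.ext rfl (heq_of_eq (by ext y; rfl))
  have hPz : ∀ ρ ∈ P, ρ z = z := by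
    intro ρ hρ
    obtain ⟨-, σ, hσ, rfl⟩ := Finset.mem_filter.1 hρ
    exact Sigma.ext rfl (heq_of_eq hσ)
  have hPodd : ∀ ρ ∈ P, ∀ x, ρ (cj x) = cj (ρ x) := by
    intro ρ hρ x
    obtain ⟨-, σ, hσ, rfl⟩ := Finset.mem_filter.1 hρ
    exact act_cj σ x
  let R : Emb K → ℤ := fun x => ∑ ρ ∈ P, r (ρ x)
  have hRz : R z = P.card * r z := by
    simp only [R]
    rw [Finset.sum_congr rfl fun ρ hρ => by rw [hPz ρ hρ], Finset.sum_const, nsmul_eq_mul]
  have hRz0 : R z ≠ 0 := by
    rw [hRz]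
    exact mul_ne_zero (Nat.cast_ne_zero.2 (Finset.card_ne_zero_of_mem hone)) hz
  have hRodd : ∀ x, R (cj x) = - R x := by
    intro x
    simp only [R]
    rw [← Finset.sum_neg_distrib]
    refine Finset.sum_congr rfl fun ρ hρ => ?_
    rw [hPodd ρ hρ, hodd]
  have hRinv : ∀ (σ : ℂ ≃+* ℂ), (σ : ℂ →+* ℂ).comp φ = φ → ∀ x, R (act σ x) = R x := by
    intro σ hσ x
    simp only [R]
    refine Finset.sum_bij (fun ρ _ => ρ * act σ) ?_ ?_ ?_ ?_
    · intro ρ hρ
      obtain ⟨-, τ, hτ, rfl⟩ := Finset.mem_filter.1 hρ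
      refine Finset.mem_filter.2 ⟨Finset.mem_univ _, σ.trans τ, ?_, ?_⟩
      · have h1 : ((σ.trans τ : ℂ ≃+* ℂ) : ℂ →+* ℂ).comp φ =
            (τ : ℂ →+* ℂ).comp ((σ : ℂ →+* ℂ).comp φ) := rfl
        rw [h1, hσ, hτ]
      · exact Equiv.ext fun x => Sigma.ext rfl (heq_of_eq (by ext y; rfl))
    · intro ρ _ ρ' _ h
      exact mul_right_cancel h
    · intro ρ hρ
      obtain ⟨-, τ, hτ, rfl⟩ := Finset.mem_filter.1 hρ
      refine ⟨act (σ.symm.trans τ), Finset.mem_filter.2 ⟨Finset.mem_univ _, σ.symm.trans τ, ?_,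
        rfl⟩, ?_⟩
      · have h1 : ((σ.symm.trans τ : ℂ ≃+* ℂ) : ℂ →+* ℂ).comp φ =
            (τ : ℂ →+* ℂ).comp ((σ.symm : ℂ →+* ℂ).comp φ) := rfl
        have h2 : (σ.symm : ℂ →+* ℂ).comp φ = φ := by
          conv_lhs => rw [← hσ]
          ext y
          simp
        rw [h1, h2, hτ]
      · refine Equiv.ext fun x => ?_
        change act (σ.symm.trans τ) (act σ x) = act τ x
        refine Sigma.ext rfl (heq_of_eq ?_)
        ext y
        change τ (σ.symm (σ (x.2 y))) = τ (x.2 y)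
        rw [RingEquiv.symm_apply_apply]
    · intro ρ _
      rfl
  have hRR : ∏ x : Emb K, val π x ^ R x = 1 := by
    have h1 : ∀ x : Emb K, val π x ^ R x = ∏ ρ ∈ P, val π x ^ r (ρ x) := by
      intro x
      simp only [R]
      induction P using Finset.induction_on with
      | empty => simp
      | insert b s hb ih =>
        rw [Finset.sum_insert hb, Finset.prod_insert hb, zpow_add₀ (val_ne_zero h0 x), ih]
    rw [Finset.prod_congr rfl fun x _ => h1 x, Finset.prod_comm]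
    refine Finset.prod_eq_one fun ρ hρ => ?_
    obtain ⟨-, σ, hσ, rfl⟩ := Finset.mem_filter.1 hρ
    have h2 := congrArg σ.symm hR
    rw [map_prod, map_one] at h2
    rw [← h2]
    refine Fintype.prod_equiv (act σ) _ _ fun x => ?_
    rw [map_zpow₀]
    congr 1
    change val π x = σ.symm (σ (val π x))
    rw [RingEquiv.symm_apply_apply]
  -- the exponents of the factors
  let N : I → (K i)[X] → ℤ := fun k g =>
    if hg : ∃ ψ : K k →+* ℂ, mp φ (ψ (π k)) = g then R ⟨k, hg.choose⟩ else 0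
  have hN : ∀ x : Emb K, N x.1 (mp φ (val π x)) = R x := by
    rintro ⟨k, ψ⟩
    have hg : ∃ ψ' : K k →+* ℂ, mp φ (ψ' (π k)) = mp φ (val π ⟨k, ψ⟩) := ⟨ψ, rfl⟩
    simp only [N]
    rw [dif_pos hg]
    obtain ⟨σ, hσ1, hσ2⟩ := exists_aut_of_mp φ (hgen k) hg.choose_spec
    have h2 : act σ (⟨k, hg.choose⟩ : Emb K) = ⟨k, ψ⟩ := Sigma.ext rfl (heq_of_eq hσ2)
    exact (hRinv σ hσ1 ⟨k, hg.choose⟩).symm.trans (congrArg R h2)
  have hprod : ∏ k, ∏ g ∈ factors (K i) (π k), ratio g ^ N k g = 1 := by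
    apply φ.injective
    rw [map_prod_ratio hgen i φ N, map_one,
      Finset.prod_congr rfl fun x _ => by rw [hN x], prod_div_cj h0 R]
    have h1 : ∀ x : Emb K, val π x ^ (R x - R (cj x)) = (val π x ^ R x) ^ 2 := by
      intro x
      rw [hRodd, sub_neg_eq_add, zpow_add₀ (val_ne_zero h0 x), sq]
    rw [Finset.prod_congr rfl fun x _ => h1 x, Finset.prod_pow, hRR, one_pow]
  -- separate the two linear factors
  set g₁ : (K i)[X] := X - C (π i) with hg₁
  set g₂ : (K i)[X] := X - C (IsCMField.complexConj (K i) (π i)) with hg₂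
  have hN1 : N i g₁ = R z := by
    rw [← hN z]
    change N i g₁ = N i (mp φ (φ (π i)))
    rw [mp_self]
  have hN2 : N i g₂ = - R z := by
    rw [← hRodd, ← hN (cj z)]
    change N i g₂ = N i (mp φ (val π (cj z)))
    rw [val_cj]
    change N i g₂ = N i (mp φ (φ (IsCMField.complexConj (K i) (π i))))
    rw [mp_self]
  have hπc : π i ≠ IsCMField.complexConj (K i) (π i) := by
    intro heq
    apply cj_ne z
    refine Sigma.ext rfl (heq_of_eq ?_)
    apply eq_of_gen (hgen i)
    change val π (cj z) = val π z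
    rw [val_cj]
    change φ (IsCMField.complexConj (K i) (π i)) = φ (π i)
    rw [← heq]
  have hg12 : g₁ ≠ g₂ := by
    intro h1
    apply hπc
    have h2 := congrArg (fun g : (K i)[X] => g.eval (π i)) h1
    simp only [hg₁, hg₂, eval_sub, eval_X, eval_C, sub_self] at h2
    exact sub_eq_zero.1 h2.symm
  have hf1 : g₁ ∈ factors (K i) (π i) := by
    have h1 := mp_mem_factors φ φ (x := π i)
    rwa [mp_self] at h1
  have hf2 : g₂ ∈ factors (K i) (π i) := by
    have h1 := mp_mem_factors φ (ComplexEmbedding.conjugate φ) (x := π i)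
    have h2 : ComplexEmbedding.conjugate φ (π i) = φ (IsCMField.complexConj (K i) (π i)) := by
      rw [IsCMField.complexEmbedding_complexConj]
      rfl
    rwa [h2, mp_self] at h1
  have hc0 : IsCMField.complexConj (K i) (π i) ≠ 0 := (_root_.map_ne_zero _).2 (h0 i)
  set u : K i := π i / IsCMField.complexConj (K i) (π i) with hu
  have hu0 : u ≠ 0 := div_ne_zero (h0 i) hc0
  have hr1 : ratio g₁ = u := by
    unfold ratio quo
    rw [hg₁, coeff_sub, coeff_X_zero, coeff_C_zero, zero_sub, map_neg, neg_div_neg_eq]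
  have hr2 : ratio g₂ = u⁻¹ := by
    unfold ratio quo
    rw [hg₂, coeff_sub, coeff_X_zero, coeff_C_zero, zero_sub, map_neg, neg_div_neg_eq,
      IsCMField.complexConj_apply_apply, hu, inv_div]
  -- the other exponents
  let N' : I → (K i)[X] → ℤ := fun k g => if k = i ∧ (g = g₁ ∨ g = g₂) then 0 else N k g
  have hsplit : (1 : K i) = u ^ (2 * R z) * ∏ k, ∏ g ∈ factors (K i) (π k), ratio g ^ N' k g := by
    rw [← hprod, ← Finset.mul_prod_erase Finset.univ _ (Finset.mem_univ i),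
      ← Finset.mul_prod_erase Finset.univ (fun k => ∏ g ∈ factors (K i) (π k), ratio g ^ N' k g)
        (Finset.mem_univ i), ← mul_assoc]
    congr 1
    · have hm2 : g₂ ∈ (factors (K i) (π i)).erase g₁ := Finset.mem_erase.2 ⟨hg12.symm, hf2⟩
      rw [← Finset.mul_prod_erase _ _ hf1, ← Finset.mul_prod_erase _ _ hm2,
        ← Finset.mul_prod_erase (factors (K i) (π i)) (fun g => ratio g ^ N' i g) hf1,
        ← Finset.mul_prod_erase ((factors (K i) (π i)).erase g₁) (fun g => ratio g ^ N' i g) hm2]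
      have e1 : N' i g₁ = 0 := if_pos ⟨rfl, Or.inl rfl⟩
      have e2 : N' i g₂ = 0 := if_pos ⟨rfl, Or.inr rfl⟩
      rw [e1, e2, zpow_zero, zpow_zero, one_mul, one_mul, ← mul_assoc, hr1, hr2, hN1, hN2]
      congr 1
      · rw [inv_zpow, zpow_neg, inv_inv, ← zpow_add₀ hu0]
        congr 1
        ring
      · refine Finset.prod_congr rfl fun g hg => ?_
        rw [Finset.mem_erase, Finset.mem_erase] at hg
        have e3 : N' i g = N i g := if_neg (by rintro ⟨-, h | h⟩; exacts [hg.2.1 h, hg.1 h])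
        rw [e3]
    · refine Finset.prod_congr rfl fun k hk => ?_
      refine Finset.prod_congr rfl fun g _ => ?_
      have e3 : N' k g = N k g := if_neg (by rintro ⟨h, -⟩; exact (Finset.mem_erase.1 hk).1 h)
      rw [e3]
  have hprodneg : ∀ c : ℤ, ∏ k, ∏ g ∈ factors (K i) (π k), ratio g ^ (c * N' k g) =
      (∏ k, ∏ g ∈ factors (K i) (π k), ratio g ^ N' k g) ^ c := by
    intro c
    rw [← Finset.prod_zpow]
    refine Finset.prod_congr rfl fun k _ => ?_
    rw [← Finset.prod_zpow]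
    refine Finset.prod_congr rfl fun g _ => ?_
    rw [mul_comm, zpow_mul]
  have hval : ∏ k, ∏ g ∈ factors (K i) (π k), ratio g ^ N' k g = u ^ (-(2 * R z)) := by
    rw [zpow_neg]
    exact eq_inv_of_mul_eq_one_right hsplit.symm
  rcases lt_or_gt_of_ne hRz0 with hneg | hpos
  · refine h i (2 * (R z)).natAbs N' (by omega) (if_pos ⟨rfl, Or.inl rfl⟩)
      (if_pos ⟨rfl, Or.inr rfl⟩) ?_
    change u ^ _ = ∏ k, ∏ g ∈ factors (K i) (π k), ratio g ^ N' k g
    rw [hval, ← zpow_natCast]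
    congr 1
    omega
  · refine h i (2 * (R z)).natAbs (fun k g => (-1) * N' k g) (by omega) ?_ ?_ ?_
    · change (-1) * N' i g₁ = 0
      rw [show N' i g₁ = 0 from if_pos ⟨rfl, Or.inl rfl⟩, mul_zero]
    · change (-1) * N' i g₂ = 0
      rw [show N' i g₂ = 0 from if_pos ⟨rfl, Or.inr rfl⟩, mul_zero]
    · change u ^ _ = ∏ k, ∏ g ∈ factors (K i) (π k), ratio g ^ (-1 * N' k g)
      rw [hprodneg, hval, ← zpow_mul, ← zpow_natCast]
      congr 1
      omega

/-- **The exact criterion.** -/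
theorem angle_iff (hw : ∀ i, π i * IsCMField.complexConj (K i) (π i) = (p : K i) ^ a)
    (hgen : ∀ i, ℚ⟮π i⟯ = ⊤) : MaximalAngleRank (p ^ a) π ↔ ∀ i, IsFree π i :=
  ⟨fun h i => isFree_of_angle hw hgen h i, angle_of_isFree hw hgen⟩

end

end Pool.Agent.H845.Orb
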