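import Mathlib

/-!
# Fields whose embeddings are indexed by subsets: definitions
-/

set_option autoImplicit false

namespace Pool.Agent.H845.Orb

open NumberField

/-- The embeddings of the CM field `K` in the field `L` are the embeddings `e Y` and their complex
conjugates, where `Y` runs through the subsets with `k` elements of the finite set `Ω`; these
embeddings are different; and for each permutation of `Ω` there is an automorphism of `L` which
permutes the embeddings `e Y` in the same way. -/
structure IsSubsetField {K : Type} [Field K] [NumberField K] [IsCMField K] {L : Type} [Field L]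
    {Ω : Type} (k : ℕ) (e : Finset Ω → (K →+* L)) : Prop where
  cover : ∀ ψ : K →+* L, ∃ Y : Finset Ω, Y.card = k ∧
    (ψ = e Y ∨ ψ = (e Y).comp (IsCMField.complexConj K : K →+* K))
  injective : ∀ Y Y' : Finset Ω, Y.card = k → Y'.card = k → e Y = e Y' → Y = Y'
  ne_conj : ∀ Y Y' : Finset Ω, Y.card = k → Y'.card = k →
    e Y ≠ (e Y').comp (IsCMField.complexConj K : K →+* K)
  perm : ∀ t : Equiv.Perm Ω, ∃ σ : L ≃+* L, ∀ Y : Finset Ω, Y.card = k →
    (σ : L →+* L).comp (e Y) = e (Y.map t.toEmbedding)

open Classical in
/-- For each `j ≤ k` there are `j` disjoint pairs `x i`, `y i` of elements of `Ω` such that the sum of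
the numbers `s Y` over all the sets `Y` with `k` elements that contain exactly one element of each
pair, with the signs `(-1) ^ m`, `m` the number of the `y i` in `Y`, is not zero. -/
def HasAlternatingSums {Ω : Type} [Fintype Ω] (k : ℕ) (s : Finset Ω → ℝ) : Prop :=
  ∀ j ≤ k, ∃ x y : Fin j → Ω, (Function.Injective x ∧ Function.Injective y ∧
    ∀ i i', x i ≠ y i') ∧
      ∑ Y : Finset Ω with Y.card = k ∧ ∀ i, (x i ∈ Y ↔ y i ∉ Y),
        (∏ i, if y i ∈ Y then (-1 : ℝ) else 1) * s Y ≠ 0

end Pool.Agent.H845.Orb
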