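import Mathlib
import Pool.Agent.H845.Orb.Defs
import Pool.Agent.H845.Orb.SubDefs
import Pool.Graph.R_seed8.Y137.MV.Defs
import Pool.Graph.R_seed8.H977R3.CM.Defs
import Pool.Graph.R_seed8.Y1.CT.UnrelDefs
import Pool.Graph.R_pool_sql_team_seeded_1acbe0a2.Y156.P.Defs

/-!
# Families of Weil numbers without relations: definitions
-/

set_option autoImplicit false

namespace Pool.Agent.H845.Orb

open NumberField Module Polynomial Pool.Agent.Y156.P Pool.Agent.H977R3.CM
open Pool.Agent.Y137.MV (MaximalAngleRank)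

/-- The complex number `ρ ≠ 0` is free from the numbers `π i`: if the product of a positive power of
`ρ` and of powers of the conjugates `φ (π i)` is a power of `q`, then complex conjugate embeddings
have the same exponents. -/
def FreeFrom (q : ℕ) {I : Type} [Fintype I] {K : I → Type} [∀ i, Field (K i)]
    [∀ i, NumberField (K i)] (π : ∀ i, K i) (ρ : ℂ) : Prop :=
  ρ ≠ 0 ∧ ∀ (N : ℕ) (c : ℤ) (n : (Σ i, (K i →+* ℂ)) → ℤ), 0 < N →
    ρ ^ N * ∏ x, (x.2 (π x.1)) ^ n x = (q : ℂ) ^ c →
      ∀ i (φ : K i →+* ℂ), n ⟨i, φ⟩ = n ⟨i, ComplexEmbedding.conjugate φ⟩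

/-- For any two embeddings `φ`, `ψ` of `F` which are neither equal nor conjugate there is an
automorphism which fixes `φ` and maps `ψ` to the complex conjugate embedding. -/
def HasFlip (F : Type) [Field F] : Prop :=
  ∀ φ ψ : F →+* ℂ, ψ ≠ φ → ψ ≠ ComplexEmbedding.conjugate φ →
    ∃ σ : ℂ ≃+* ℂ, (σ : ℂ →+* ℂ).comp φ = φ ∧
      (σ : ℂ →+* ℂ).comp ψ = ComplexEmbedding.conjugate ψ

/-- The logarithm of the `p`-adic absolute value of the conjugate `e Y π`, minus one half of the
logarithm of the absolute value of `p ^ a`. -/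
noncomputable def dev (p a : ℕ) [Fact p.Prime] {K : Type} [Field K] {Ω : Type}
    (e : Finset Ω → (K →+* PadicAlgCl p)) (π : K) (Y : Finset Ω) : ℝ :=
  Real.log ‖e Y π‖ - Real.log ‖(p : PadicAlgCl p) ^ a‖ / 2

end Pool.Agent.H845.Orb
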