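import Mathlib
import Pool.Agent.H845.Orb.Crit
import Pool.Agent.H845.Orb.FreeDefs

/-!
# Independent fields, and several Weil numbers in one field
-/

set_option autoImplicit false
set_option linter.unusedSectionVars false
set_option linter.unusedVariables false

namespace Pool.Agent.H845.Orb

open NumberField Module Polynomial Pool.Agent.TH170.MF Pool.Agent.Y156.P Pool.Agent.H977R3.CM
open Pool.Agent.Y137.MV (MaximalAngleRank)
open scoped IntermediateField

section

variable {p a : ℕ} [hp : Fact p.Prime] {I : Type} [Fintype I] {K : I → Type}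
  [∀ i, Field (K i)] [∀ i, NumberField (K i)] [∀ i, IsCMField (K i)] {π : ∀ i, K i}

theorem mp_act {i : I} {φ : K i →+* ℂ} {σ : ℂ ≃+* ℂ} (hσ : (σ : ℂ →+* ℂ).comp φ = φ) {z : ℂ}
    (hz : IsIntegral ℚ z) : mp φ (σ z) = mp φ z := by
  refine (eq_mp φ ?_ (mp_monic φ hz) (mp_irreducible φ hz)).symm
  have h1 := congrArg σ (eval_mp φ z)
  rw [map_zero] at h1
  rw [← h1]
  have h2 : eval₂ ((σ : ℂ →+* ℂ).comp φ) ((σ : ℂ →+* ℂ) z) (mp φ z) =
      (σ : ℂ →+* ℂ) (eval₂ φ z (mp φ z)) := (hom_eval₂ _ _ _ _).symm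
  rw [hσ] at h2
  exact h2

/-- The quotient belonging to a factor whose roots are stable under the complex conjugation. -/
theorem ratio_eq_one (h0 : ∀ i, π i ≠ 0) (hgen : ∀ i, ℚ⟮π i⟯ = ⊤) {i k : I} (φ : K i →+* ℂ)
    (ψ : K k →+* ℂ)
    (h : ∃ σ : ℂ ≃+* ℂ, (σ : ℂ →+* ℂ).comp φ = φ ∧
      (σ : ℂ →+* ℂ).comp ψ = ComplexEmbedding.conjugate ψ) :
    ratio (mp φ (ψ (π k))) = 1 := by
  classical
  obtain ⟨σ, hσ, hσψ⟩ := h
  have hg := mp_mem_factors φ ψ (x := π k)
  set g := mp φ (ψ (π k)) with hgdef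
  apply φ.injective
  rw [map_ratio hgen i φ k hg, map_one]
  have hstab : ∀ ψ' : K k →+* ℂ, mp φ (ψ' (π k)) = g →
      mp φ (ComplexEmbedding.conjugate ψ' (π k)) = g := by
    intro ψ' hψ'
    obtain ⟨τ, hτ, hτψ⟩ := exists_aut_of_mp φ (hgen k) (hgdef ▸ hψ'.symm)
    have h1 : ComplexEmbedding.conjugate ψ' (π k) =
        τ (ComplexEmbedding.conjugate ψ (π k)) := by
      rw [← hτψ, ← conj_comp]
      rfl
    have h2 : ComplexEmbedding.conjugate ψ (π k) = σ (ψ (π k)) := by
      rw [← hσψ]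
      rfl
    have hint : IsIntegral ℚ (σ (ψ (π k))) := isIntegral_emb ((σ : ℂ →+* ℂ).comp ψ) (π k)
    rw [h1, h2, mp_act hτ hint, mp_act hσ (isIntegral_emb ψ (π k))]
  rw [Finset.prod_div_distrib]
  have h3 : ∏ ψ' : K k →+* ℂ with mp φ (ψ' (π k)) = g, val π (cj ⟨k, ψ'⟩) =
      ∏ ψ' : K k →+* ℂ with mp φ (ψ' (π k)) = g, val π ⟨k, ψ'⟩ := by
    refine Finset.prod_bij (fun ψ' _ => ComplexEmbedding.conjugate ψ') ?_ ?_ ?_ ?_
    · intro ψ' hψ'
      rw [Finset.mem_filter] at hψ' ⊢
      exact ⟨Finset.mem_univ _, hstab ψ' hψ'.2⟩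
    · intro ψ₁ _ ψ₂ _ h
      have h4 := congrArg ComplexEmbedding.conjugate h
      simpa using h4
    · intro ψ' hψ'
      rw [Finset.mem_filter] at hψ'
      exact ⟨ComplexEmbedding.conjugate ψ', Finset.mem_filter.2 ⟨Finset.mem_univ _,
        hstab ψ' hψ'.2⟩, by simp⟩
    · intro ψ' _
      rfl
  rw [h3, div_self]
  exact Finset.prod_ne_zero_iff.2 fun ψ' _ => val_ne_zero h0 _

/-- A factor of the minimal polynomial of `π k` belongs to an embedding. -/
theorem exists_emb_of_factor (i k : I) (φ : K i →+* ℂ) {g : (K i)[X]}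
    (hg : g ∈ factors (K i) (π k)) : ∃ ψ : K k →+* ℂ, g = mp φ (ψ (π k)) := by
  obtain ⟨h1, h2, h3⟩ := mem_factors_iff.1 hg
  have hdeg : 0 < (g.map φ).degree := by
    rw [degree_map]
    exact degree_pos_of_irreducible h2
  obtain ⟨z, hz⟩ := IsAlgClosed.exists_root (g.map φ) hdeg.ne'
  rw [IsRoot.def, eval_map] at hz
  have h5 : z ∈ (minpoly ℚ (π k)).rootSet ℂ := by
    rw [mem_rootSet]
    refine ⟨minpoly.ne_zero (Algebra.IsIntegral.isIntegral (π k)), ?_⟩
    obtain ⟨h, hh⟩ := h3
    have h6 : eval₂ φ z ((minpoly ℚ (π k)).map (algebraMap ℚ (K i))) = 0 := by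
      rw [hh, eval₂_mul, hz, zero_mul]
    rw [eval₂_map] at h6
    rw [aeval_def, ← h6]
    congr 1
    exact Subsingleton.elim _ _
  rw [← NumberField.Embeddings.range_eval_eq_rootSet_minpoly (K k) ℂ (π k)] at h5
  obtain ⟨ψ, hψ⟩ := h5
  refine ⟨ψ, ?_⟩
  have hψ' : ψ (π k) = z := hψ
  rw [hψ']
  exact eq_mp φ hz h1 h2

/-- **For independent fields it is sufficient to consider the numbers one by one.** -/
theorem isFree_iff_single (h0 : ∀ i, π i ≠ 0) (hgen : ∀ i, ℚ⟮π i⟯ = ⊤) (hind : PairwiseIndep K)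
    (i : I) : IsFree π i ↔ IsFree (fun _ : Unit => π i) () := by
  classical
  obtain ⟨φ⟩ : Nonempty (K i →+* ℂ) := inferInstance
  have hone : ∀ k, k ≠ i → ∀ g ∈ factors (K i) (π k), ratio g = 1 := by
    intro k hk g hg
    obtain ⟨ψ, rfl⟩ := exists_emb_of_factor i k φ hg
    obtain ⟨σ, hσ1, hσ2⟩ := hind i k hk.symm φ ψ
    refine ratio_eq_one h0 hgen φ ψ ⟨σ, ?_, ?_⟩
    · ext x
      exact hσ1 x
    · ext y
      exact hσ2 y
  have hprod : ∀ n : I → (K i)[X] → ℤ, ∏ k, ∏ g ∈ factors (K i) (π k), ratio g ^ n k g =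
      ∏ g ∈ factors (K i) (π i), ratio g ^ n i g := by
    intro n
    refine Finset.prod_eq_single i (fun k _ hk => ?_) (fun h => absurd (Finset.mem_univ _) h)
    refine Finset.prod_eq_one fun g hg => ?_
    rw [hone k hk g hg, one_zpow]
  constructor
  · intro h m n hm h1 h2 heq
    refine h m (fun _ => n ()) hm h1 h2 ?_
    change _ = ∏ k, ∏ g ∈ factors (K i) (π k), ratio g ^ n () g
    rw [hprod fun _ => n ()]
    rw [Fintype.prod_unique] at heq
    exact heq
  · intro h m n hm h1 h2 heq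
    refine h m (fun _ => n i) hm h1 h2 ?_
    rw [Fintype.prod_unique]
    change _ = ∏ g ∈ factors (K i) (π i), ratio g ^ n i g
    rw [← hprod]
    exact heq

end

section

variable {p a : ℕ} [hp : Fact p.Prime] {I : Type} [Fintype I] {K : I → Type}
  [∀ i, Field (K i)] [∀ i, NumberField (K i)] [∀ i, IsCMField (K i)] {J : I → Type}
  [∀ i, Fintype (J i)]

/-- The quotients of the linear factors. -/
theorem ratio_X_sub_C {E : Type} [Field E] [NumberField E] [IsCMField E] (x : E) :
    ratio (X - C x) = x / IsCMField.complexConj E x := by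
  unfold ratio quo
  rw [coeff_sub, coeff_X_zero, coeff_C_zero, zero_sub, map_neg, neg_div_neg_eq]

theorem X_sub_C_mem {E : Type} [Field E] [NumberField E] [IsCMField E] (x : E) :
    X - C x ∈ factors E x := by
  obtain ⟨φ⟩ : Nonempty (E →+* ℂ) := inferInstance
  have h1 := mp_mem_factors φ φ (x := x)
  rwa [mp_self] at h1

theorem X_sub_C_conj_mem {E : Type} [Field E] [NumberField E] [IsCMField E] (x : E) :
    X - C (IsCMField.complexConj E x) ∈ factors E x := by
  obtain ⟨φ⟩ : Nonempty (E →+* ℂ) := inferInstance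
  have h1 := mp_mem_factors φ (ComplexEmbedding.conjugate φ) (x := x)
  have h2 : ComplexEmbedding.conjugate φ x = φ (IsCMField.complexConj E x) := by
    rw [IsCMField.complexEmbedding_complexConj]
    rfl
  rwa [h2, mp_self] at h1

theorem ne_conj_of_gen {E : Type} [Field E] [NumberField E] [IsCMField E] {x : E}
    (hx : ℚ⟮x⟯ = ⊤) : x ≠ IsCMField.complexConj E x := by
  intro heq
  obtain ⟨φ⟩ : Nonempty (E →+* ℂ) := inferInstance
  have h1 : φ = ComplexEmbedding.conjugate φ := by
    apply eq_of_gen hx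
    have h2 : ComplexEmbedding.conjugate φ x = φ (IsCMField.complexConj E x) := by
      rw [IsCMField.complexEmbedding_complexConj]
      rfl
    rw [h2, ← heq]
  have h2 : ∀ y, IsCMField.complexConj E y = y := by
    intro y
    apply φ.injective
    rw [IsCMField.complexEmbedding_complexConj]
    exact (RingHom.congr_fun h1 y).symm
  exact IsCMField.complexConj_ne_one E (AlgEquiv.ext h2)

open Classical in
/-- The product over the factors of one polynomial in a field with flips. -/
theorem prod_factors_flip {E : Type} [Field E] [NumberField E] [IsCMField E] {x : E}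
    (hx0 : x ≠ 0) (hx : ℚ⟮x⟯ = ⊤) (hflip : HasFlip E) (N : E[X] → ℤ) :
    ∏ g ∈ factors E x, ratio g ^ N g = (x / IsCMField.complexConj E x) ^
      (N (X - C x) - N (X - C (IsCMField.complexConj E x))) := by
  obtain ⟨φ⟩ : Nonempty (E →+* ℂ) := inferInstance
  have hne := ne_conj_of_gen hx
  have hc0 : IsCMField.complexConj E x ≠ 0 := (_root_.map_ne_zero _).2 hx0
  have hg12 : (X - C x : E[X]) ≠ X - C (IsCMField.complexConj E x) := by
    intro h1
    apply hne
    have h2 := congrArg (fun g : E[X] => g.eval x) h1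
    simp only [eval_sub, eval_X, eval_C, sub_self] at h2
    exact sub_eq_zero.1 h2.symm
  have hm2 : X - C (IsCMField.complexConj E x) ∈ (factors E x).erase (X - C x) :=
    Finset.mem_erase.2 ⟨hg12.symm, X_sub_C_conj_mem x⟩
  rw [← Finset.mul_prod_erase _ _ (X_sub_C_mem x), ← Finset.mul_prod_erase _ _ hm2,
    Finset.prod_eq_one, mul_one, ratio_X_sub_C, ratio_X_sub_C,
    IsCMField.complexConj_apply_apply, zpow_sub₀ (div_ne_zero hx0 hc0),
    div_eq_mul_inv (_ ^ N (X - C x)), ← inv_zpow, inv_div]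
  intro g hg
  rw [Finset.mem_erase, Finset.mem_erase] at hg
  obtain ⟨hg2, hg1, hg⟩ := hg
  obtain ⟨ψ, hψ⟩ := exists_emb_of_factor (K := fun _ : Unit => E) (π := fun _ => x) () () φ hg
  have h1 : ψ ≠ φ := by
    rintro rfl
    apply hg1
    rw [hψ]
    exact mp_self ψ x
  have h2 : ψ ≠ ComplexEmbedding.conjugate φ := by
    rintro rfl
    apply hg2
    rw [hψ]
    have h3 : ComplexEmbedding.conjugate φ x = φ (IsCMField.complexConj E x) := by
      rw [IsCMField.complexEmbedding_complexConj]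
      rfl
    change mp φ (ComplexEmbedding.conjugate φ x) = _
    rw [h3]
    exact mp_self φ _
  have h3 := ratio_eq_one (K := fun _ : Unit => E) (π := fun _ => x) (fun _ => hx0) (fun _ => hx)
    (i := ()) (k := ()) φ ψ (hflip φ ψ h1 h2)
  rw [hψ]
  change ratio (mp φ (ψ x)) ^ _ = 1
  have h4 : ratio (mp φ (ψ x)) = 1 := h3
  rw [h4, one_zpow]

/-- **Several Weil numbers in the same fields.** -/
theorem angle_iff_indep {π : ∀ i, J i → K i}
    (hw : ∀ i j, π i j * IsCMField.complexConj (K i) (π i j) = (p : K i) ^ a)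
    (hgen : ∀ i j, ℚ⟮π i j⟯ = ⊤) (hind : PairwiseIndep K) (hflip : ∀ i, HasFlip (K i)) :
    MaximalAngleRank (ι := Σ i, J i) (F := fun x => K x.1) (p ^ a) (fun x => π x.1 x.2) ↔
      ∀ i (n : J i → ℤ), ∏ j, (π i j / IsCMField.complexConj (K i) (π i j)) ^ n j = 1 →
        n = 0 := by
  classical
  have hw' : ∀ x : (Σ i, J i), π x.1 x.2 * IsCMField.complexConj (K x.1) (π x.1 x.2) =
      (p : K x.1) ^ a := fun x => hw x.1 x.2
  have hgen' : ∀ x : (Σ i, J i), ℚ⟮π x.1 x.2⟯ = ⊤ := fun x => hgen x.1 x.2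
  have h0 : ∀ i j, π i j ≠ 0 := fun i j => pi_ne_zero (K := fun x : (Σ i, J i) => K x.1)
    (π := fun x => π x.1 x.2) hw' ⟨i, j⟩
  have hu0 : ∀ i j, π i j / IsCMField.complexConj (K i) (π i j) ≠ 0 := fun i j =>
    div_ne_zero (h0 i j) ((_root_.map_ne_zero _).2 (h0 i j))
  constructor
  · intro hang i n hn
    funext j₀
    by_contra hne
    -- change the sign
    obtain ⟨n', hn', hpos⟩ : ∃ n' : J i → ℤ,
        ∏ j, (π i j / IsCMField.complexConj (K i) (π i j)) ^ n' j = 1 ∧ 0 < n' j₀ := by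
      rcases lt_or_gt_of_ne hne with h | h
      · refine ⟨fun j => - n j, ?_, by simpa using h⟩
        rw [Finset.prod_congr rfl fun j _ => zpow_neg (π i j / _) (n j), Finset.prod_inv_distrib,
          hn, inv_one]
      · exact ⟨n, hn, h⟩
    have hfree := isFree_of_angle (K := fun x : (Σ i, J i) => K x.1) (π := fun x => π x.1 x.2)
      hw' hgen' hang ⟨i, j₀⟩
    let N : (Σ i, J i) → (K i)[X] → ℤ := fun x g =>
      ∑ j : J i, if x = ⟨i, j⟩ ∧ g = X - C (π i j) ∧ j ≠ j₀ then - n' j else 0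
    refine hfree (n' j₀).toNat N (by omega) ?_ ?_ ?_
    · refine Finset.sum_eq_zero fun j _ => if_neg ?_
      rintro ⟨h1, -, h3⟩
      exact h3 (eq_of_heq (Sigma.mk.inj h1).2).symm
    · refine Finset.sum_eq_zero fun j _ => if_neg ?_
      rintro ⟨h1, -, h3⟩
      exact h3 (eq_of_heq (Sigma.mk.inj h1).2).symm
    · change (π i j₀ / IsCMField.complexConj (K i) (π i j₀)) ^ (n' j₀).toNat =
        ∏ x : (Σ i, J i), ∏ g ∈ factors (K i) (π x.1 x.2), ratio g ^ N x g
      have h1 : ∀ (x : (Σ i, J i)), ∏ g ∈ factors (K i) (π x.1 x.2), ratio g ^ N x g =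
          ∏ j : J i, if x = ⟨i, j⟩ then
            (if j ≠ j₀ then (π i j / IsCMField.complexConj (K i) (π i j)) ^ (- n' j) else 1)
            else 1 := by
        intro x
        by_cases hx : ∃ j, x = ⟨i, j⟩
        · obtain ⟨j, rfl⟩ := hx
          rw [Finset.prod_eq_single j]
          · rw [if_pos rfl]
            have h2 : ∀ g, N ⟨i, j⟩ g = if g = X - C (π i j) ∧ j ≠ j₀ then - n' j else 0 := by
              intro g
              change ∑ j' : J i, (if (⟨i, j⟩ : Σ i, J i) = ⟨i, j'⟩ ∧ g = X - C (π i j') ∧ j' ≠ j₀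
                then - n' j' else 0) = _
              rw [Finset.sum_eq_single j]
              · simp only [true_and]
              · intro j' _ hj'
                rw [if_neg]
                rintro ⟨h3, -⟩
                exact hj' (eq_of_heq (Sigma.mk.inj h3).2).symm
              · intro h
                exact absurd (Finset.mem_univ _) h
            change ∏ g ∈ factors (K i) (π i j), ratio g ^ N ⟨i, j⟩ g = _
            rw [Finset.prod_eq_single (X - C (π i j))]
            · rw [h2, ratio_X_sub_C]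
              by_cases hj : j ≠ j₀
              · rw [if_pos ⟨rfl, hj⟩, if_pos hj]
              · rw [if_neg (fun h => hj h.2), if_neg hj, zpow_zero]
            · intro g _ hg
              rw [h2, if_neg (fun h => hg h.1), zpow_zero]
            · intro h
              exact absurd (X_sub_C_mem _) h
          · intro j' _ hj'
            rw [if_neg]
            intro h3
            exact hj' (eq_of_heq (Sigma.mk.inj h3).2).symm
          · intro h
            exact absurd (Finset.mem_univ _) h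
        · have h2 : ∀ g, N x g = 0 := fun g => Finset.sum_eq_zero fun j _ =>
            if_neg fun h => hx ⟨j, h.1⟩
          rw [Finset.prod_eq_one fun g _ => by rw [h2, zpow_zero]]
          exact (Finset.prod_eq_one fun j _ => if_neg fun h => hx ⟨j, h⟩).symm
      rw [Finset.prod_congr rfl fun x _ => h1 x, Finset.prod_comm]
      have h3 : ∀ j : J i, ∏ x : (Σ i, J i), (if x = ⟨i, j⟩ then
            (if j ≠ j₀ then (π i j / IsCMField.complexConj (K i) (π i j)) ^ (- n' j) else 1)
            else 1) =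
          if j ≠ j₀ then (π i j / IsCMField.complexConj (K i) (π i j)) ^ (- n' j) else 1 := by
        intro j
        rw [Finset.prod_ite_eq' Finset.univ, if_pos (Finset.mem_univ _)]
      rw [Finset.prod_congr rfl fun j _ => h3 j]
      rw [← Finset.mul_prod_erase Finset.univ _ (Finset.mem_univ j₀)] at hn'
      rw [← Finset.mul_prod_erase Finset.univ _ (Finset.mem_univ j₀), if_neg (by simp), one_mul]
      have h4 : ∏ j ∈ Finset.univ.erase j₀, (if j ≠ j₀ then
          (π i j / IsCMField.complexConj (K i) (π i j)) ^ (- n' j) else 1) =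
          (∏ j ∈ Finset.univ.erase j₀, (π i j / IsCMField.complexConj (K i) (π i j)) ^ n' j)⁻¹ := by
        rw [← Finset.prod_inv_distrib]
        refine Finset.prod_congr rfl fun j hj => ?_
        rw [if_pos (Finset.ne_of_mem_erase hj), zpow_neg]
      rw [h4, ← zpow_natCast, Int.toNat_of_nonneg hpos.le]
      exact eq_inv_of_mul_eq_one_left hn'
  · intro h
    refine angle_of_isFree (K := fun x : (Σ i, J i) => K x.1) (π := fun x => π x.1 x.2) hw' hgen'
      ?_
    rintro ⟨i, j₀⟩ m N hm hN1 hN2 heq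
    change N ⟨i, j₀⟩ (X - C (π i j₀)) = 0 at hN1
    change N ⟨i, j₀⟩ (X - C (IsCMField.complexConj (K i) (π i j₀))) = 0 at hN2
    change (π i j₀ / IsCMField.complexConj (K i) (π i j₀)) ^ m =
      ∏ x : (Σ i, J i), ∏ g ∈ factors (K i) (π x.1 x.2), ratio g ^ N x g at heq
    have h1 : ∏ x : (Σ i, J i), ∏ g ∈ factors (K i) (π x.1 x.2), ratio g ^ N x g =
        ∏ j : J i, (π i j / IsCMField.complexConj (K i) (π i j)) ^
          (N ⟨i, j⟩ (X - C (π i j)) - N ⟨i, j⟩ (X - C (IsCMField.complexConj (K i) (π i j)))) := by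
      rw [Fintype.prod_sigma, Finset.prod_eq_single i]
      · refine Finset.prod_congr rfl fun j _ => ?_
        exact prod_factors_flip (h0 i j) (hgen i j) (hflip i) (N ⟨i, j⟩)
      · intro i' _ hi'
        refine Finset.prod_eq_one fun j _ => Finset.prod_eq_one fun g hg => ?_
        obtain ⟨φ⟩ : Nonempty (K i →+* ℂ) := inferInstance
        obtain ⟨ψ, rfl⟩ := exists_emb_of_factor (K := fun x : (Σ i, J i) => K x.1)
          (π := fun x => π x.1 x.2) ⟨i, j₀⟩ ⟨i', j⟩ φ hg
        obtain ⟨σ, hσ1, hσ2⟩ := hind i i' (Ne.symm hi') φ ψ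
        have h2 := ratio_eq_one (K := fun x : (Σ i, J i) => K x.1) (π := fun x => π x.1 x.2)
          (fun x => h0 x.1 x.2) hgen' (i := ⟨i, j₀⟩) (k := ⟨i', j⟩) φ ψ ⟨σ, by
            ext x
            exact hσ1 x, by
            ext y
            exact hσ2 y⟩
        change ratio (mp φ (ψ (π i' j))) ^ _ = 1
        have h3 : ratio (mp φ (ψ (π i' j))) = 1 := h2
        rw [h3, one_zpow]
      · intro h
        exact absurd (Finset.mem_univ _) h
    rw [h1] at heq
    let n : J i → ℤ := fun j => N ⟨i, j⟩ (X - C (π i j)) -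
      N ⟨i, j⟩ (X - C (IsCMField.complexConj (K i) (π i j))) - if j = j₀ then (m : ℤ) else 0
    have h2 := h i n ?_
    · have h3 := congrFun h2 j₀
      simp only [n, if_true, Pi.zero_apply] at h3
      rw [hN1, hN2] at h3
      omega
    · have h3 : ∀ j, (π i j / IsCMField.complexConj (K i) (π i j)) ^ n j =
          (π i j / IsCMField.complexConj (K i) (π i j)) ^
            (N ⟨i, j⟩ (X - C (π i j)) - N ⟨i, j⟩ (X - C (IsCMField.complexConj (K i) (π i j)))) /
          (if j = j₀ then (π i j / IsCMField.complexConj (K i) (π i j)) ^ m else 1) := by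
        intro j
        simp only [n]
        rw [zpow_sub₀ (hu0 i j)]
        congr 1
        split_ifs
        · rw [zpow_natCast]
        · rw [zpow_zero]
      rw [Finset.prod_congr rfl fun j _ => h3 j, Finset.prod_div_distrib, ← heq,
        Finset.prod_ite_eq' Finset.univ j₀, if_pos (Finset.mem_univ _), div_self]
      exact pow_ne_zero _ (hu0 i j₀)

end

end Pool.Agent.H845.Orb
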