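import Mathlib
import Pool.Agent.H845.Orb.Fam
import Pool.Graph.R_pool_sql_team_seeded_1acbe0a2.Y156.P.Kro

/-!
# The criterion in terms of absolute values
-/

set_option autoImplicit false
set_option linter.unusedSectionVars false
set_option linter.unusedVariables false

namespace Pool.Agent.H845.Orb

open NumberField Module Polynomial Pool.Agent.TH170.MF Pool.Agent.Y156.P Pool.Agent.H485R3
  Pool.Agent.H204R3.CM
open scoped IntermediateField

section

variable {p a : ℕ} [hp : Fact p.Prime] {I : Type} [Fintype I] {K : I → Type}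
  [∀ i, Field (K i)] [∀ i, NumberField (K i)] [∀ i, IsCMField (K i)] {π : ∀ i, K i}
  {F : Type} [Field F] [NumberField F] [IsCMField F]

/-- The constant terms of the factors are integral, and divide a power of `p`. -/
theorem coeff_integral (hint : ∀ i, IsIntegral ℤ (π i))
    (hw : ∀ i, π i * IsCMField.complexConj (K i) (π i) = (p : K i) ^ a)
    (hgen : ∀ i, ℚ⟮π i⟯ = ⊤) {k : I} {g : F[X]} (hg : g ∈ factors F (π k)) :
    IsIntegral ℤ (g.coeff 0) ∧ ∃ (z : F) (m : ℕ), IsIntegral ℤ z ∧ g.coeff 0 * z = (p : F) ^ m := by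
  classical
  obtain ⟨φ⟩ : Nonempty (F →+* ℂ) := inferInstance
  have h1 := coeff_zero_eq φ (hgen k) hg
  have hinj : Function.Injective φ.toIntAlgHom := φ.injective
  have hval : ∀ ψ : K k →+* ℂ, IsIntegral ℤ (ψ (π k)) := fun ψ => (hint k).map ψ.toIntAlgHom
  have hc : ∀ ψ : K k →+* ℂ, IsIntegral ℤ (ψ (IsCMField.complexConj (K k) (π k))) := fun ψ =>
    ((hint k).map (IsCMField.complexConj (K k))).map ψ.toIntAlgHom
  have hsgn : IsIntegral ℤ ((-1 : ℂ) ^ g.natDegree) :=
    (isIntegral_one.neg).pow _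
  refine ⟨?_, ?_⟩
  · rw [← isIntegral_algHom_iff φ.toIntAlgHom hinj]
    change IsIntegral ℤ (φ (g.coeff 0))
    rw [h1]
    exact hsgn.mul (IsIntegral.prod _ fun ψ _ => hval ψ)
  · set S : Finset (K k →+* ℂ) := Finset.univ.filter fun ψ => mp φ (ψ (π k)) = g with hS
    have hg0 : g.coeff 0 ≠ 0 := by
      intro h0
      rw [h0, map_zero] at h1
      refine mul_ne_zero (pow_ne_zero _ (by norm_num)) (Finset.prod_ne_zero_iff.2 fun ψ _ => ?_)
        h1.symm
      exact (_root_.map_ne_zero ψ).2 (pi_ne_zero hw k)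
    refine ⟨(p : F) ^ (a * S.card) / g.coeff 0, a * S.card, ?_, mul_div_cancel₀ _ hg0⟩
    rw [← isIntegral_algHom_iff φ.toIntAlgHom hinj]
    change IsIntegral ℤ (φ ((p : F) ^ (a * S.card) / g.coeff 0))
    have h2 : φ ((p : F) ^ (a * S.card) / g.coeff 0) =
        (-1) ^ g.natDegree * ∏ ψ ∈ S, ψ (IsCMField.complexConj (K k) (π k)) := by
      rw [map_div₀, div_eq_iff ((_root_.map_ne_zero φ).2 hg0), h1, map_pow, map_natCast]
      have h3 : (∏ ψ ∈ S, ψ (IsCMField.complexConj (K k) (π k))) * (∏ ψ ∈ S, ψ (π k)) =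
          (p : ℂ) ^ (a * S.card) := by
        rw [← Finset.prod_mul_distrib]
        have h4 : ∀ ψ ∈ S, ψ (IsCMField.complexConj (K k) (π k)) * ψ (π k) = (p : ℂ) ^ a := by
          intro ψ _
          rw [mul_comm, ← map_mul, hw, map_pow, map_natCast]
        rw [Finset.prod_congr rfl h4, Finset.prod_const, ← pow_mul]
      have h5 : ((-1 : ℂ) ^ g.natDegree) * (-1) ^ g.natDegree = 1 := by
        rw [← mul_pow]
        norm_num
      calc (p : ℂ) ^ (a * S.card) = (((-1 : ℂ) ^ g.natDegree) * (-1) ^ g.natDegree) *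
          ((∏ ψ ∈ S, ψ (IsCMField.complexConj (K k) (π k))) * (∏ ψ ∈ S, ψ (π k))) := by
            rw [h5, one_mul, h3]
        _ = _ := by
            ring
    rw [h2]
    exact hsgn.mul (IsIntegral.prod _ fun ψ _ => hc ψ)

/-- The absolute values of integral numbers dividing a power of `p`. -/
theorem norm_eq_one_of_dvd {l : ℕ} [Fact l.Prime] (hl : l ≠ p) {x : F} (hx : IsIntegral ℤ x)
    (h : ∃ (z : F) (m : ℕ), IsIntegral ℤ z ∧ x * z = (p : F) ^ m) (e : F →+* PadicAlgCl l) :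
    ‖e x‖ = 1 := by
  obtain ⟨z, m, hz, hxz⟩ := h
  have h1 : ‖e x‖ ≤ 1 := norm_le_one_of_isIntegral l _ (map_isIntegral_int e hx)
  have h2 : ‖e z‖ ≤ 1 := norm_le_one_of_isIntegral l _ (map_isIntegral_int e hz)
  have h3 : ‖e x‖ * ‖e z‖ = 1 := by
    rw [← norm_mul, ← map_mul, hxz, map_pow, map_natCast, norm_pow, norm_prime_ne l hp.out hl,
      one_pow]
  refine le_antisymm h1 ?_
  by_contra hlt
  push Not at hlt
  have h4 : ‖e x‖ * ‖e z‖ < 1 := by
    calc ‖e x‖ * ‖e z‖ ≤ ‖e x‖ * 1 := mul_le_mul_of_nonneg_left h2 (norm_nonneg _)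
      _ < 1 := by rw [mul_one]; exact hlt
  exact h4.ne h3

theorem norm_quo_eq_one {l : ℕ} [Fact l.Prime] (hl : l ≠ p) {x : F} (hx : IsIntegral ℤ x)
    (h : ∃ (z : F) (m : ℕ), IsIntegral ℤ z ∧ x * z = (p : F) ^ m) (e : F →+* PadicAlgCl l) :
    ‖e (quo x)‖ = 1 := by
  unfold quo
  rw [map_div₀, norm_div, norm_eq_one_of_dvd hl hx h]
  have h1 : ‖e (IsCMField.complexConj F x)‖ = 1 :=
    norm_eq_one_of_dvd hl hx h (e.comp (IsCMField.complexConj F : F →+* F))
  rw [h1, div_one]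

theorem norm_quo_complex {x : F} (hx : x ≠ 0) (χ : F →+* ℂ) : ‖χ (quo x)‖ = 1 := by
  unfold quo
  rw [map_div₀, norm_div, IsCMField.complexEmbedding_complexConj, RCLike.norm_conj, div_self]
  rw [norm_ne_zero_iff]
  exact (_root_.map_ne_zero χ).2 hx

/-- A number all of whose absolute values are one is a root of unity. -/
theorem pow_eq_one_of_abs {y : F} (h1 : ∀ (l : ℕ) [Fact l.Prime] (e : F →+* PadicAlgCl l),
    ‖e y‖ = 1) (h2 : ∀ χ : F →+* ℂ, ‖χ y‖ = 1) : ∃ N : ℕ, 0 < N ∧ y ^ N = 1 := by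
  obtain ⟨L, _, _, j, hj⟩ := exists_galois (fun _ : Unit => F)
  obtain ⟨φ⟩ : Nonempty (F →+* ℂ) := inferInstance
  obtain ⟨ψ, -⟩ := hj () φ
  have hint : IsIntegral ℤ (ψ y) := isIntegral_of_norm_le (ψ y) fun l _ e =>
    (h1 l ((e : L →+* PadicAlgCl l).comp ψ)).le
  obtain ⟨N, hN, h⟩ := pow_eq_one_of_norm (ψ y) hint fun χ => h2 ((χ : L →+* ℂ).comp ψ)
  refine ⟨N, hN, ψ.injective ?_⟩
  rw [map_pow, h, map_one]

/-- **The criterion in terms of the `p`-adic absolute values of the field.** -/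
theorem isFree_iff_abs (hπ : ∀ i, IsSimpleWeil p a (π i)) (hgen : ∀ i, ℚ⟮π i⟯ = ⊤) (i : I) :
    IsFree π i ↔ ∀ (m : ℕ) (n : I → (K i)[X] → ℤ), 0 < m → n i (lin (π i)) = 0 →
      n i (lin (IsCMField.complexConj (K i) (π i))) = 0 →
        ∃ e : K i →+* PadicAlgCl p, ‖e (quo (π i))‖ ^ m ≠ ‖e (∏ k, prodRatio (π k) (n k))‖ := by
  classical
  have hw : ∀ i, π i * IsCMField.complexConj (K i) (π i) = (p : K i) ^ a := fun i => (hπ i).weil
  have hint : ∀ i, IsIntegral ℤ (π i) := fun i => (hπ i).integral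
  have h0 := pi_ne_zero hw
  constructor
  · intro h m n hm h1 h2
    by_contra hcon
    push Not at hcon
    have hcoeff : ∀ k, ∀ g ∈ factors (K i) (π k), g.coeff 0 ≠ 0 := by
      intro k g hg hg0
      obtain ⟨-, z, m', -, hz⟩ := coeff_integral hint hw hgen hg
      rw [hg0, zero_mul] at hz
      exact pow_ne_zero _ (Nat.cast_ne_zero.2 hp.out.ne_zero) hz.symm
    have hquo0 : ∀ x : K i, x ≠ 0 → quo x ≠ 0 := fun x hx =>
      div_ne_zero hx ((_root_.map_ne_zero _).2 hx)
    set P : K i := ∏ k, prodRatio (π k) (n k) with hP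
    have hP0 : P ≠ 0 := by
      refine Finset.prod_ne_zero_iff.2 fun k _ => Finset.prod_ne_zero_iff.2 fun g hg => ?_
      exact zpow_ne_zero _ (hquo0 _ (hcoeff k g hg))
    have hPl : ∀ (l : ℕ) [Fact l.Prime], l ≠ p → ∀ e : K i →+* PadicAlgCl l, ‖e P‖ = 1 := by
      intro l _ hl e
      rw [hP, map_prod, norm_prod]
      refine Finset.prod_eq_one fun k _ => ?_
      unfold prodRatio
      rw [map_prod, norm_prod]
      refine Finset.prod_eq_one fun g hg => ?_
      obtain ⟨hg1, hg2⟩ := coeff_integral hint hw hgen hg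
      have h3 : ‖e (ratio g)‖ = 1 := norm_quo_eq_one hl hg1 hg2 e
      rw [map_zpow₀, norm_zpow, h3, one_zpow]
    have hPc : ∀ χ : K i →+* ℂ, ‖χ P‖ = 1 := by
      intro χ
      rw [hP, map_prod, norm_prod]
      refine Finset.prod_eq_one fun k _ => ?_
      unfold prodRatio
      rw [map_prod, norm_prod]
      refine Finset.prod_eq_one fun g hg => ?_
      have h3 : ‖χ (ratio g)‖ = 1 := norm_quo_complex (hcoeff k g hg) χ
      rw [map_zpow₀, norm_zpow, h3, one_zpow]
    obtain ⟨N, hN, hy⟩ := pow_eq_one_of_abs (y := quo (π i) ^ m / P) (fun l _ e => by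
      by_cases hl : l = p
      · subst hl
        rw [map_div₀, map_pow, norm_div, norm_pow, hcon e, div_self]
        rw [norm_ne_zero_iff]
        exact (_root_.map_ne_zero e).2 hP0
      · rw [map_div₀, map_pow, norm_div, norm_pow, hPl l hl e,
          norm_quo_eq_one hl (hint i) ⟨_, a, (hint i).map (IsCMField.complexConj (K i)), hw i⟩ e,
          one_pow, div_one]) (fun χ => by
      rw [map_div₀, map_pow, norm_div, norm_pow, hPc χ, norm_quo_complex (h0 i) χ, one_pow,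
        div_one])
    rw [div_pow, div_eq_one_iff_eq (pow_ne_zero _ hP0), ← pow_mul] at hy
    refine h (m * N) (fun k g => n k g * N) (Nat.mul_pos hm hN) ?_ ?_ ?_
    · rw [h1, zero_mul]
    · rw [h2, zero_mul]
    · rw [hy, hP, ← Finset.prod_pow]
      refine Finset.prod_congr rfl fun k _ => ?_
      unfold prodRatio
      rw [← Finset.prod_pow]
      refine Finset.prod_congr rfl fun g _ => ?_
      rw [zpow_mul, zpow_natCast]
  · intro h m n hm h1 h2 heq
    obtain ⟨e, he⟩ := h m n hm h1 h2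
    apply he
    rw [← heq, map_pow, norm_pow]

end

end Pool.Agent.H845.Orb
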