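import Mathlib
import Pool.Agent.H845.Orb.FreeDefs

/-!
# The criteria for families of Weil numbers without relations: parts
-/

set_option autoImplicit false

namespace Pool.Agent.H845.Orb

open NumberField Module Polynomial Pool.Agent.Y156.P Pool.Agent.H977R3.CM
open Pool.Agent.Y137.MV (MaximalAngleRank)

/-- The version of `IsFreeAt` with absolute values: for all exponents as in `IsFreeAt` the equation
fails for some `p`-adic absolute value of `E`. -/
def IsFreeAbs (p : ℕ) [Fact p.Prime] {I : Type} [Fintype I] {K : I → Type} [∀ i, Field (K i)]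
    [∀ i, NumberField (K i)] (π : ∀ i, K i) (i : I) {E : Type} [Field E] [NumberField E]
    [IsCMField E] (x : E) : Prop :=
  ∀ (m : ℕ) (n : I → E[X] → ℤ), 0 < m → n i (lin x) = 0 →
    n i (lin (IsCMField.complexConj E x)) = 0 → ∃ v : E →+* PadicAlgCl p,
      ‖v (quo x)‖ ^ m ≠ ‖v (∏ k, prodRatio (π k) (n k))‖

/-- A positive power of `x / conj x` is a product of powers of the numbers `ratio g`, `g` a factor
over `F` of the minimal polynomial of some `π i`, only if the exponents of `g` and of the complex
conjugate of `g` are always the same. -/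
def OnlySymmetric {I : Type} [Fintype I] {K : I → Type} [∀ i, Field (K i)]
    [∀ i, NumberField (K i)] (π : ∀ i, K i) {F : Type} [Field F] [NumberField F] [IsCMField F]
    (x : F) : Prop :=
  ∀ (N : ℕ) (n : I → F[X] → ℤ), 0 < N → quo x ^ N = ∏ k, prodRatio (π k) (n k) →
    ∀ k, ∀ g ∈ factors F (π k), n k g = n k (conjPoly g)

/-- Several Weil numbers `π i j` in each of the pairwise independent fields `K i` with flips
(`HasFlip`): they are free if and only if for each `i` the quotients of the `π i j` by their complex
conjugates are multiplicatively independent. -/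
def SameFieldCriterion (p a : ℕ) [Fact p.Prime] {I : Type} [Fintype I] (K : I → Type)
    [∀ i, Field (K i)] [∀ i, NumberField (K i)] [∀ i, IsCMField (K i)] : Prop :=
  PairwiseIndep K → (∀ i, HasFlip (K i)) → ∀ (J : I → Type) [∀ i, Fintype (J i)]
    (π : ∀ i, J i → K i), (∀ i j, IsSimpleWeil p a (π i j)) →
      ((∀ x : (Σ i, J i), IsFree (K := fun x : (Σ i, J i) => K x.1) (fun x => π x.1 x.2) x) ↔
        ∀ i (n : J i → ℤ), ∏ j, quo (π i j) ^ n j = 1 → n = 0)

end Pool.Agent.H845.Orb
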