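import Mathlib
import Pool.Agent.H845.Orb.FreeDefs

/-!
# The criterion for fields with embeddings indexed by subsets
-/

set_option autoImplicit false

namespace Pool.Agent.H845.Orb

open NumberField Module Polynomial Pool.Agent.Y156.P Pool.Agent.H977R3.CM
open Pool.Agent.Y137.MV (MaximalAngleRank)

/-- Weil numbers in fields whose embeddings are indexed by subsets. The embeddings of the CM field `K`
in an algebraic closure of the field of the `p`-adic numbers are, up to complex conjugation, indexed by
the subsets with `k` elements of a finite set `Ω` such that every permutation of `Ω` is induced by a
field automorphism (`IsSubsetField`). If for each `j ≤ k` there are `j` disjoint pairs of elements of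
`Ω` with a nonvanishing alternating sum of the slopes minus one half (`HasAlternatingSums`), then `π`
is free. -/
def SubsetCriterion (p a : ℕ) [Fact p.Prime] {K : Type} [Field K] [NumberField K] [IsCMField K]
    (π : K) : Prop :=
  ∀ (Ω : Type) [Fintype Ω] (k : ℕ) (e : Finset Ω → (K →+* PadicAlgCl p)), IsSubsetField k e →
    HasAlternatingSums k (dev p a e π) → IsFree (fun _ : Unit => π) ()

end Pool.Agent.H845.Orb
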