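import Mathlib
import Pool.Agent.H298.Core.Disc
import Pool.Agent.H845.Orb.FreeDefs
import Pool.Graph.R_seed8.TH170.MF.Field

/-!
# Fields with flips
-/

set_option autoImplicit false
set_option linter.unusedSectionVars false
set_option linter.unusedVariables false

namespace Pool.Agent.H845.Orb

open NumberField Module Pool.Agent.TH170.MF Pool.Agent.H298.Core

attribute [local instance] actC

variable {E : Type} [Field E] [NumberField E] [IsCMField E]

theorem conj_conj' (φ : E →+* ℂ) :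
    ComplexEmbedding.conjugate (ComplexEmbedding.conjugate φ) = φ := by simp

theorem star_comp (φ : E →+* ℂ) :
    ((starRingAut : ℂ ≃+* ℂ) : ℂ →+* ℂ).comp φ = ComplexEmbedding.conjugate φ := by
  ext x
  rfl

/-- A sign change which moves exactly one of two embeddings. -/
theorem flip_of_xor {φ ψ : E →+* ℂ} {σ : ℂ ≃+* ℂ}
    (h1 : (σ : ℂ →+* ℂ).comp φ = φ ∨ (σ : ℂ →+* ℂ).comp φ = ComplexEmbedding.conjugate φ)
    (h2 : (σ : ℂ →+* ℂ).comp ψ = ψ ∨ (σ : ℂ →+* ℂ).comp ψ = ComplexEmbedding.conjugate ψ)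
    (h : ¬ ((σ : ℂ →+* ℂ).comp φ = φ ↔ (σ : ℂ →+* ℂ).comp ψ = ψ)) :
    ∃ τ : ℂ ≃+* ℂ, (τ : ℂ →+* ℂ).comp φ = φ ∧
      (τ : ℂ →+* ℂ).comp ψ = ComplexEmbedding.conjugate ψ := by
  rcases h1 with h1 | h1
  · rcases h2 with h2 | h2
    · exact absurd ⟨fun _ => h2, fun _ => h1⟩ h
    · exact ⟨σ, h1, h2⟩
  · rcases h2 with h2 | h2
    · refine ⟨σ.trans starRingAut, ?_, ?_⟩
      · have e : ((σ.trans starRingAut : ℂ ≃+* ℂ) : ℂ →+* ℂ).comp φ =
            ((starRingAut : ℂ ≃+* ℂ) : ℂ →+* ℂ).comp ((σ : ℂ →+* ℂ).comp φ) := rfl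
        rw [e, h1, star_comp, conj_conj']
      · have e : ((σ.trans starRingAut : ℂ ≃+* ℂ) : ℂ →+* ℂ).comp ψ =
            ((starRingAut : ℂ ≃+* ℂ) : ℂ →+* ℂ).comp ((σ : ℂ →+* ℂ).comp ψ) := rfl
        rw [e, h2, star_comp]
    · exfalso
      apply h
      rw [h1, h2]
      constructor
      · intro hh
        exact absurd hh (by
          intro hh
          have hh' : ∀ y, IsCMField.complexConj E y = y := by
            intro y
            apply φ.injective
            rw [IsCMField.complexEmbedding_complexConj]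
            exact RingHom.congr_fun hh y
          exact IsCMField.complexConj_ne_one E (AlgEquiv.ext hh'))
      · intro hh
        exact absurd hh (by
          intro hh
          have hh' : ∀ y, IsCMField.complexConj E y = y := by
            intro y
            apply ψ.injective
            rw [IsCMField.complexEmbedding_complexConj]
            exact RingHom.congr_fun hh y
          exact IsCMField.complexConj_ne_one E (AlgEquiv.ext hh'))

/-- Fields with core number one have flips. -/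
theorem hasFlip_of_core (h : HasCore E 1) : HasFlip E := by
  classical
  obtain ⟨n, φ, hcard⟩ := h
  -- the core is the pair
  have hself : φ ∈ coreOf n φ := by
    rw [coreOf_eq]
    exact Pool.Agent.H298.Core.self_mem n φ
  have hconj : ComplexEmbedding.conjugate φ ∈ coreOf n φ := by
    rw [coreOf_eq] at hself ⊢
    exact Pool.Agent.H298.Core.inv_mem Pool.Agent.H298.Core.conj_conj smul_conj hself
  have hcore : ∀ ψ ∈ coreOf n φ, ψ = φ ∨ ψ = ComplexEmbedding.conjugate φ := by
    intro ψ hψ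
    by_contra hcon
    push Not at hcon
    have h3 : ({φ, ComplexEmbedding.conjugate φ, ψ} : Finset (E →+* ℂ)).card = 3 := by
      rw [Finset.card_eq_three]
      exact ⟨_, _, _, (Pool.Agent.H298.Core.conj_ne φ).symm, hcon.1.symm, hcon.2.symm, rfl⟩
    have h4 : (({φ, ComplexEmbedding.conjugate φ, ψ} : Finset (E →+* ℂ)) : Set (E →+* ℂ)).ncard ≤
        (coreOf n φ).ncard := by
      refine Set.ncard_le_ncard ?_ (Set.toFinite _)
      intro χ hχ
      simp only [Finset.coe_insert, Finset.coe_singleton, Set.mem_insert_iff,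
        Set.mem_singleton_iff] at hχ
      rcases hχ with rfl | rfl | rfl
      · exact hself
      · exact hconj
      · exact hψ
    rw [Set.ncard_coe_finset, h3] at h4
    omega
  have hφ : ∀ ψ : E →+* ℂ, ψ ≠ φ → ψ ≠ ComplexEmbedding.conjugate φ →
      ∃ σ : ℂ ≃+* ℂ, (σ : ℂ →+* ℂ).comp φ = φ ∧
        (σ : ℂ →+* ℂ).comp ψ = ComplexEmbedding.conjugate ψ := by
    intro ψ h1 h2
    have hnot : ψ ∉ coreOf n φ := fun h => (hcore ψ h).elim h1 h2
    clear hcore hcard hself hconj
    induction n with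
    | zero => exact absurd (Set.mem_univ ψ) hnot
    | succ n ih =>
      by_cases hψ : ψ ∈ coreOf n φ
      · have h3 : ¬ ∀ σ : ℂ ≃+* ℂ, SignsOn (coreOf n φ) σ →
            ((σ : ℂ →+* ℂ).comp φ = φ ↔ (σ : ℂ →+* ℂ).comp ψ = ψ) := fun h => hnot ⟨hψ, h⟩
        push Not at h3
        obtain ⟨σ, hσ, h4⟩ := h3
        have hself' : φ ∈ coreOf n φ := by
          rw [coreOf_eq]
          exact Pool.Agent.H298.Core.self_mem n φ
        refine flip_of_xor (hσ φ hself') (hσ ψ hψ) ?_
        rcases h4 with h4 | h4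
        · exact fun h => h4.2 (h.1 h4.1)
        · exact fun h => h4.1 (h.2 h4.2)
      · exact ih hψ
  intro φ' ψ' h1 h2
  obtain ⟨τ, hτ⟩ := exists_comp_eq E φ' φ
  obtain ⟨σ, hσ1, hσ2⟩ := hφ ((τ : ℂ →+* ℂ).comp ψ') (fun h => h1 (by
    rw [← hτ] at h
    ext x
    exact τ.injective (RingHom.congr_fun h x))) (fun h => h2 (by
    have e : ComplexEmbedding.conjugate φ = (τ : ℂ →+* ℂ).comp (ComplexEmbedding.conjugate φ') := by
      rw [← hτ]
      ext y
      have e1 := IsCMField.complexEmbedding_complexConj (K := E) φ' y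
      have e2 := IsCMField.complexEmbedding_complexConj (K := E) ((τ : ℂ →+* ℂ).comp φ') y
      rw [ComplexEmbedding.conjugate_coe_eq, ← e2, RingHom.comp_apply, RingHom.comp_apply,
        ComplexEmbedding.conjugate_coe_eq, ← e1]
    rw [e] at h
    ext x
    exact τ.injective (RingHom.congr_fun h x)))
  refine ⟨(τ.trans σ).trans τ.symm, ?_, ?_⟩
  · have e : (((τ.trans σ).trans τ.symm : ℂ ≃+* ℂ) : ℂ →+* ℂ).comp φ' =
        (τ.symm : ℂ →+* ℂ).comp ((σ : ℂ →+* ℂ).comp ((τ : ℂ →+* ℂ).comp φ')) := rfl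
    rw [e, hτ, hσ1, ← hτ]
    ext x
    simp
  · have e : (((τ.trans σ).trans τ.symm : ℂ ≃+* ℂ) : ℂ →+* ℂ).comp ψ' =
        (τ.symm : ℂ →+* ℂ).comp ((σ : ℂ →+* ℂ).comp ((τ : ℂ →+* ℂ).comp ψ')) := rfl
    rw [e, hσ2]
    ext y
    have e1 := IsCMField.complexEmbedding_complexConj (K := E) ψ' y
    have e2 := IsCMField.complexEmbedding_complexConj (K := E) ((τ : ℂ →+* ℂ).comp ψ') y
    rw [RingHom.comp_apply, ComplexEmbedding.conjugate_coe_eq, ← e2,
      ComplexEmbedding.conjugate_coe_eq, ← e1]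
    exact τ.symm_apply_apply _

/-- A prime number which divides the discriminant of the field exactly once. -/
theorem hasFlip_of_discr {q : ℕ} (hq : q.Prime) (h1 : (q : ℤ) ∣ discr E)
    (h2 : ¬ (q : ℤ) ∣ discr (maximalRealSubfield E)) (h3 : ¬ (q : ℤ) ^ 2 ∣ discr E) :
    HasFlip E := by
  obtain ⟨φ, c, hc, hdvd⟩ := core_of_discr hq h1 h2
  have hc1 : c ≤ 1 := by
    by_contra h
    exact h3 ((pow_dvd_pow _ (by omega)).trans hdvd)
  have hc0 : c ≠ 0 := by
    rintro rfl
    have hself : φ ∈ coreOf 1 φ := by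
      rw [coreOf_eq]
      exact Pool.Agent.H298.Core.self_mem 1 φ
    rw [mul_zero, Set.ncard_eq_zero (Set.toFinite _)] at hc
    rw [hc] at hself
    exact hself
  have hc2 : c = 1 := by omega
  subst hc2
  exact hasFlip_of_core ⟨1, φ, hc⟩

end Pool.Agent.H845.Orb
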