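import Mathlib

/-!
# Functions on the subsets with `k` elements of a finite set
-/

set_option autoImplicit false
set_option linter.unusedSectionVars false
set_option linter.unusedVariables false

namespace Pool.Agent.H845.Orb

open Finset

section

variable {Ω : Type} [Fintype Ω] [DecidableEq Ω] {R : Type} [Field R]

/-- The difference of the values. -/
def dif (a b : Ω) (f : Finset Ω → R) (Z : Finset Ω) : R := f (insert a Z) - f (insert b Z)

/-- The subsets with `k` elements disjoint from `P`. -/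
def sub (P : Finset Ω) (k : ℕ) : Finset (Finset Ω) := powersetCard k Pᶜ

theorem mem_sub {P : Finset Ω} {k : ℕ} {Y : Finset Ω} :
    Y ∈ sub P k ↔ (∀ y ∈ Y, y ∉ P) ∧ Y.card = k := by
  unfold sub
  rw [mem_powersetCard]
  constructor
  · rintro ⟨h1, h2⟩
    exact ⟨fun y hy => by simpa using h1 hy, h2⟩
  · rintro ⟨h1, h2⟩
    exact ⟨fun y hy => by simpa using h1 y hy, h2⟩

/-- Sums of functions that vanish unless exactly one of `a`, `b` belongs to the set. -/
theorem sum_split {P : Finset Ω} {k : ℕ} {a b : Ω} (hab : a ≠ b) (ha : a ∉ P) (hb : b ∉ P)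
    (F : Finset Ω → R) (hF : ∀ Y, (a ∈ Y ↔ b ∈ Y) → F Y = 0) :
    ∑ Y ∈ sub P (k + 1), F Y =
      ∑ Z ∈ sub (insert a (insert b P)) k, (F (insert a Z) + F (insert b Z)) := by
  classical
  have key : ∀ c d : Ω, c ≠ d → c ∉ P → (∀ Z, Z ∈ sub (insert c (insert d P)) k →
      insert c Z ∈ (sub P (k + 1)).filter fun Y => c ∈ Y ∧ d ∉ Y) := by
    intro c d hcd hc Z hZ
    obtain ⟨h1, h2⟩ := mem_sub.1 hZ
    have hcZ : c ∉ Z := fun h => h1 c h (mem_insert_self _ _)
    have hdZ : d ∉ Z := fun h => h1 d h (mem_insert_of_mem (mem_insert_self _ _))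
    rw [mem_filter, mem_sub]
    refine ⟨⟨fun y hy => ?_, by rw [card_insert_of_notMem hcZ, h2]⟩, mem_insert_self _ _, ?_⟩
    · rcases mem_insert.1 hy with rfl | hy
      · exact hc
      · exact fun h => h1 y hy (mem_insert_of_mem (mem_insert_of_mem h))
    · intro h
      rcases mem_insert.1 h with h | h
      · exact hcd h.symm
      · exact hdZ h
  have hsum : ∀ c d : Ω, c ≠ d → c ∉ P →
      ∑ Y ∈ (sub P (k + 1)).filter (fun Y => c ∈ Y ∧ d ∉ Y), F Y =
        ∑ Z ∈ sub (insert c (insert d P)) k, F (insert c Z) := by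
    intro c d hcd hc
    symm
    refine sum_bij (fun Z _ => insert c Z) (fun Z hZ => key c d hcd hc Z hZ) ?_ ?_ fun _ _ => rfl
    · intro Z hZ Z' hZ' h
      have h1 : c ∉ Z := fun h => (mem_sub.1 hZ).1 c h (mem_insert_self _ _)
      have h2 : c ∉ Z' := fun h => (mem_sub.1 hZ').1 c h (mem_insert_self _ _)
      have h3 := congrArg (fun Y => Y.erase c) h
      simp only [erase_insert h1, erase_insert h2] at h3
      exact h3
    · intro Y hY
      rw [mem_filter, mem_sub] at hY
      obtain ⟨⟨h1, h2⟩, h3, h4⟩ := hY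
      refine ⟨Y.erase c, mem_sub.2 ⟨fun y hy => ?_, by rw [card_erase_of_mem h3, h2]; rfl⟩,
        insert_erase h3⟩
      obtain ⟨h5, h6⟩ := mem_erase.1 hy
      intro h
      rcases mem_insert.1 h with h | h
      · exact h5 h
      · rcases mem_insert.1 h with h | h
        · exact h4 (h ▸ h6)
        · exact h1 y h6 h
  rw [← sum_filter_add_sum_filter_not (sub P (k + 1)) (fun Y => a ∈ Y ∧ b ∉ Y) F,
    ← sum_filter_add_sum_filter_not ((sub P (k + 1)).filter fun Y => ¬ (a ∈ Y ∧ b ∉ Y))
      (fun Y => b ∈ Y ∧ a ∉ Y) F, filter_filter, filter_filter]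
  have h1 : ∑ Y ∈ (sub P (k + 1)).filter (fun Y => ¬ (a ∈ Y ∧ b ∉ Y) ∧ ¬ (b ∈ Y ∧ a ∉ Y)), F Y =
      0 := by
    refine sum_eq_zero fun Y hY => hF Y ?_
    rw [mem_filter] at hY
    tauto
  have h2 : (sub P (k + 1)).filter (fun Y => ¬ (a ∈ Y ∧ b ∉ Y) ∧ (b ∈ Y ∧ a ∉ Y)) =
      (sub P (k + 1)).filter fun Y => b ∈ Y ∧ a ∉ Y :=
    filter_congr fun Y _ => by tauto
  rw [h1, h2, add_zero, hsum a b hab ha, hsum b a hab.symm hb, sum_add_distrib]
  congr 1
  rw [Finset.insert_comm a b P]

/-- Composition with a permutation. -/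
def mv (t : Equiv.Perm Ω) (u : Finset Ω → R) (Y : Finset Ω) : R := u (Y.map t.toEmbedding)

/-- The pairing. -/
def pair (P : Finset Ω) (k : ℕ) (f u : Finset Ω → R) : R := ∑ Y ∈ sub P k, f Y * u Y

theorem map_swap_insert {a b : Ω} {Z : Finset Ω} (ha : a ∉ Z) (hb : b ∉ Z) :
    (insert a Z).map (Equiv.swap a b).toEmbedding = insert b Z := by
  rw [map_insert]
  congr 1
  · simp
  · ext z
    simp only [mem_map, Equiv.coe_toEmbedding]
    constructor
    · rintro ⟨y, hy, rfl⟩
      have h1 : y ≠ a := by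
        rintro rfl
        exact ha hy
      have h2 : y ≠ b := by
        rintro rfl
        exact hb hy
      rwa [Equiv.swap_apply_of_ne_of_ne h1 h2]
    · intro hz
      have h1 : z ≠ a := by
        rintro rfl
        exact ha hz
      have h2 : z ≠ b := by
        rintro rfl
        exact hb hz
      exact ⟨z, hz, Equiv.swap_apply_of_ne_of_ne h1 h2⟩

theorem map_swap_self {a b : Ω} {Y : Finset Ω} (h : a ∈ Y ↔ b ∈ Y) :
    Y.map (Equiv.swap a b).toEmbedding = Y := by
  refine eq_of_subset_of_card_le (fun z hz => ?_) (by rw [card_map])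
  simp only [mem_map, Equiv.coe_toEmbedding] at hz
  obtain ⟨y, hy, rfl⟩ := hz
  by_cases h1 : y = a
  · subst h1
    rw [Equiv.swap_apply_left]
    exact h.1 hy
  · by_cases h2 : y = b
    · subst h2
      rw [Equiv.swap_apply_right]
      exact h.2 hy
    · rwa [Equiv.swap_apply_of_ne_of_ne h1 h2]

theorem pair_dif {P : Finset Ω} {k : ℕ} {a b : Ω} (hab : a ≠ b) (ha : a ∉ P) (hb : b ∉ P)
    (f u : Finset Ω → R) :
    pair P (k + 1) f u - pair P (k + 1) f (mv (Equiv.swap a b) u) =
      pair (insert a (insert b P)) k (dif a b f) (dif a b u) := by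
  unfold pair
  rw [← sum_sub_distrib]
  have h1 : ∀ Y, f Y * u Y - f Y * mv (Equiv.swap a b) u Y =
      f Y * (u Y - mv (Equiv.swap a b) u Y) := fun Y => by ring
  simp only [h1]
  rw [sum_split hab ha hb _ fun Y hY => by
    unfold mv
    rw [map_swap_self hY, sub_self, mul_zero]]
  refine sum_congr rfl fun Z hZ => ?_
  obtain ⟨h2, -⟩ := mem_sub.1 hZ
  have haZ : a ∉ Z := fun h => h2 a h (mem_insert_self _ _)
  have hbZ : b ∉ Z := fun h => h2 b h (mem_insert_of_mem (mem_insert_self _ _))
  unfold mv dif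
  rw [map_swap_insert haZ hbZ, Equiv.swap_comm a b, map_swap_insert hbZ haZ]
  ring

/-- A function that does not change if one element is exchanged is constant. -/
theorem const_of_exchange {P : Finset Ω} {k : ℕ} (g : Finset Ω → R)
    (hg : ∀ a b, a ≠ b → a ∉ P → b ∉ P → ∀ Z ∈ sub (insert a (insert b P)) k, dif a b g Z = 0) :
    ∀ n : ℕ, ∀ Y ∈ sub P (k + 1), ∀ Y' ∈ sub P (k + 1), (Y \ Y').card = n → g Y = g Y' := by
  intro n
  induction n with
  | zero =>
    intro Y hY Y' hY' h
    rw [card_eq_zero, sdiff_eq_empty_iff_subset] at h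
    rw [eq_of_subset_of_card_le h (by rw [(mem_sub.1 hY).2, (mem_sub.1 hY').2])]
  | succ n ih =>
    intro Y hY Y' hY' h
    obtain ⟨h1, h2⟩ := mem_sub.1 hY
    obtain ⟨h1', h2'⟩ := mem_sub.1 hY'
    obtain ⟨a, ha⟩ : (Y \ Y').Nonempty := card_pos.1 (by omega)
    have hc : (Y' \ Y).card = n + 1 := by
      rw [← h]
      have e1 := card_sdiff_add_card_inter Y Y'
      have e2 := card_sdiff_add_card_inter Y' Y
      rw [inter_comm] at e2
      omega
    obtain ⟨b, hb⟩ : (Y' \ Y).Nonempty := card_pos.1 (by omega)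
    rw [mem_sdiff] at ha hb
    have hab : a ≠ b := fun hh => hb.2 (hh ▸ ha.1)
    have haZ : a ∉ Y.erase a := notMem_erase a Y
    have hbZ : b ∉ Y.erase a := fun hh => hb.2 (mem_of_mem_erase hh)
    have hZ : Y.erase a ∈ sub (insert a (insert b P)) k := by
      refine mem_sub.2 ⟨fun y hy => ?_, by rw [card_erase_of_mem ha.1, h2]; rfl⟩
      intro hh
      rcases mem_insert.1 hh with hh | hh
      · exact haZ (hh ▸ hy)
      · rcases mem_insert.1 hh with hh | hh
        · exact hbZ (hh ▸ hy)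
        · exact h1 y (mem_of_mem_erase hy) hh
    have h3 := hg a b hab (h1 a ha.1) (h1' b hb.1) _ hZ
    unfold dif at h3
    rw [insert_erase ha.1, sub_eq_zero] at h3
    rw [h3]
    refine ih _ (mem_sub.2 ⟨fun y hy => ?_, by
      rw [card_insert_of_notMem hbZ, card_erase_of_mem ha.1, h2]; rfl⟩) Y' hY' ?_
    · rcases mem_insert.1 hy with rfl | hy
      · exact h1' _ hb.1
      · exact h1 y (mem_of_mem_erase hy)
    · have h4 : insert b (Y.erase a) \ Y' = (Y \ Y').erase a := by
        ext z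
        simp only [mem_sdiff, mem_insert, mem_erase]
        constructor
        · rintro ⟨rfl | ⟨h5, h6⟩, h7⟩
          · exact absurd hb.1 h7
          · exact ⟨h5, h6, h7⟩
        · rintro ⟨h5, h6, h7⟩
          exact ⟨Or.inr ⟨h5, h6⟩, h7⟩
      rw [h4, card_erase_of_mem (mem_sdiff.2 ha), h]
      rfl

/-- The alternating sum over the sets that contain exactly one element of each pair. -/
def alt (P : Finset Ω) (k : ℕ) {j : ℕ} (x y : Fin j → Ω) (u : Finset Ω → R) : R :=
  ∑ Y ∈ (sub P k).filter (fun Y => ∀ i, (x i ∈ Y ↔ y i ∉ Y)),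
    (∏ i, if y i ∈ Y then (-1 : R) else 1) * u Y

/-- The elements of the pairs are different. -/
def Diff {j : ℕ} (x y : Fin j → Ω) : Prop :=
  Function.Injective x ∧ Function.Injective y ∧ ∀ i i', x i ≠ y i'

theorem alt_succ {P : Finset Ω} {k j : ℕ} {x y : Fin (j + 1) → Ω} (hd : Diff x y)
    (hx : ∀ i, x i ∉ P) (hy : ∀ i, y i ∉ P) (u : Finset Ω → R) :
    alt P (k + 1) x y u = alt (insert (x 0) (insert (y 0) P)) k (fun i => x i.succ)
      (fun i => y i.succ) (dif (x 0) (y 0) u) := by
  classical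
  unfold alt
  rw [sum_filter, sum_filter, sum_split (hd.2.2 0 0) (hx 0) (hy 0) _ fun Y hY => by
    rw [if_neg]
    intro h
    have := h 0
    tauto]
  refine sum_congr rfl fun Z hZ => ?_
  obtain ⟨h2, -⟩ := mem_sub.1 hZ
  have haZ : x 0 ∉ Z := fun h => h2 _ h (mem_insert_self _ _)
  have hbZ : y 0 ∉ Z := fun h => h2 _ h (mem_insert_of_mem (mem_insert_self _ _))
  have hx0 : ∀ i : Fin j, x i.succ ≠ x 0 := fun i h => Fin.succ_ne_zero i (hd.1 h)
  have hy0 : ∀ i : Fin j, y i.succ ≠ y 0 := fun i h => Fin.succ_ne_zero i (hd.2.1 h)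
  have hxy : ∀ i : Fin j, x i.succ ≠ y 0 := fun i => hd.2.2 _ _
  have hyx : ∀ i : Fin j, y i.succ ≠ x 0 := fun i h => hd.2.2 _ _ h.symm
  have e1 : (∀ i, (x i ∈ insert (x 0) Z ↔ y i ∉ insert (x 0) Z)) ↔
      ∀ i : Fin j, (x i.succ ∈ Z ↔ y i.succ ∉ Z) := by
    rw [Fin.forall_fin_succ]
    constructor
    · rintro ⟨-, h⟩ i
      have := h i
      simp only [mem_insert, hx0 i, hyx i, false_or] at this
      exact this
    · intro h
      refine ⟨?_, fun i => ?_⟩
      · simp only [mem_insert_self, mem_insert, hbZ, true_iff, or_false]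
        exact fun h => hd.2.2 0 0 h.symm
      · simp only [mem_insert, hx0 i, hyx i, false_or]
        exact h i
  have e2 : (∀ i, (x i ∈ insert (y 0) Z ↔ y i ∉ insert (y 0) Z)) ↔
      ∀ i : Fin j, (x i.succ ∈ Z ↔ y i.succ ∉ Z) := by
    rw [Fin.forall_fin_succ]
    constructor
    · rintro ⟨-, h⟩ i
      have := h i
      simp only [mem_insert, hxy i, hy0 i, false_or] at this
      exact this
    · intro h
      refine ⟨?_, fun i => ?_⟩
      · simp only [mem_insert_self, mem_insert, haZ, or_false, not_true, iff_false]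
        exact hd.2.2 0 0
      · simp only [mem_insert, hxy i, hy0 i, false_or]
        exact h i
  by_cases h : ∀ i : Fin j, (x i.succ ∈ Z ↔ y i.succ ∉ Z)
  · rw [if_pos (e1.2 h), if_pos (e2.2 h), if_pos h, Fin.prod_univ_succ, Fin.prod_univ_succ]
    have f1 : (if y 0 ∈ insert (x 0) Z then (-1 : R) else 1) = 1 := by
      rw [if_neg]
      rw [mem_insert, not_or]
      exact ⟨fun h => hd.2.2 0 0 h.symm, hbZ⟩
    have f2 : (if y 0 ∈ insert (y 0) Z then (-1 : R) else 1) = -1 :=
      if_pos (mem_insert_self _ _)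
    have f3 : ∀ i : Fin j, (if y i.succ ∈ insert (x 0) Z then (-1 : R) else 1) =
        if y i.succ ∈ Z then (-1 : R) else 1 := by
      intro i
      simp only [mem_insert, hyx i, false_or]
    have f4 : ∀ i : Fin j, (if y i.succ ∈ insert (y 0) Z then (-1 : R) else 1) =
        if y i.succ ∈ Z then (-1 : R) else 1 := by
      intro i
      simp only [mem_insert, hy0 i, false_or]
    rw [f1, f2, prod_congr rfl fun i _ => f3 i, prod_congr rfl fun i _ => f4 i]
    unfold dif
    ring
  · rw [if_neg fun h' => h (e1.1 h'), if_neg fun h' => h (e2.1 h'), if_neg h, add_zero]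

theorem map_mem_sub {P : Finset Ω} {k : ℕ} {t : Equiv.Perm Ω} (ht : ∀ z ∈ P, t z = z)
    {Y : Finset Ω} (hY : Y ∈ sub P k) : Y.map t.toEmbedding ∈ sub P k := by
  obtain ⟨h1, h2⟩ := mem_sub.1 hY
  refine mem_sub.2 ⟨fun z hz => ?_, by rw [card_map, h2]⟩
  simp only [mem_map, Equiv.coe_toEmbedding] at hz
  obtain ⟨y, hy, rfl⟩ := hz
  intro hh
  have h3 : t y = y := t.injective (ht _ hh)
  exact h1 y hy (h3 ▸ hh)

theorem alt_mv {P : Finset Ω} {k j : ℕ} (x y : Fin j → Ω) {t : Equiv.Perm Ω}
    (ht : ∀ z ∈ P, t z = z) (u : Finset Ω → R) :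
    alt P k x y (mv t u) = alt P k (fun i => t (x i)) (fun i => t (y i)) u := by
  classical
  unfold alt
  refine sum_bij (fun Y _ => Y.map t.toEmbedding) ?_ ?_ ?_ ?_
  · intro Y hY
    rw [mem_filter] at hY ⊢
    refine ⟨map_mem_sub ht hY.1, fun i => ?_⟩
    have h1 := hY.2 i
    rw [mem_map_equiv, mem_map_equiv, Equiv.symm_apply_apply, Equiv.symm_apply_apply]
    exact h1
  · intro Y _ Y' _ h
    exact map_injective _ h
  · intro Y hY
    rw [mem_filter] at hY
    have ht' : ∀ z ∈ P, t.symm z = z := fun z hz => by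
      rw [Equiv.symm_apply_eq, ht z hz]
    refine ⟨Y.map t.symm.toEmbedding, mem_filter.2 ⟨map_mem_sub ht' hY.1, fun i => ?_⟩, ?_⟩
    · have h1 := hY.2 i
      rw [mem_map_equiv, mem_map_equiv]
      exact h1
    · ext z
      rw [mem_map_equiv, mem_map_equiv]
      simp
  · intro Y hY
    unfold mv
    congr 1
    refine prod_congr rfl fun i _ => ?_
    have h1 : t (y i) ∈ Y.map t.toEmbedding ↔ y i ∈ Y := by
      rw [mem_map_equiv, Equiv.symm_apply_apply]
    simp only [h1]

/-- **Functions orthogonal to a stable full set of functions vanish.** -/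
theorem eq_zero_of_full (k : ℕ) : ∀ (P : Finset Ω) (f : Finset Ω → R)
    (U : Set (Finset Ω → R)),
    (∀ u ∈ U, ∀ t : Equiv.Perm Ω, (∀ z ∈ P, t z = z) → mv t u ∈ U) →
    (∀ u ∈ U, pair P k f u = 0) →
    (∀ j ≤ k, ∃ u ∈ U, ∃ x y : Fin j → Ω, Diff x y ∧ (∀ i, x i ∉ P) ∧ (∀ i, y i ∉ P) ∧
      alt P k x y u ≠ 0) →
    ∀ Y ∈ sub P k, f Y = 0 := by
  induction k with
  | zero =>
    intro P f U hU horth hfull Y hY
    obtain ⟨u, hu, x, y, -, -, -, h⟩ := hfull 0 le_rfl
    have h1 : sub P 0 = {∅} := powersetCard_zero _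
    have h2 := horth u hu
    unfold pair at h2
    unfold alt at h
    rw [h1] at h2 h hY
    rw [mem_singleton] at hY
    rw [sum_singleton] at h2
    rw [filter_true_of_mem (fun _ _ i => i.elim0), sum_singleton, Fin.prod_univ_zero, one_mul] at h
    rw [hY]
    exact (mul_eq_zero.1 h2).resolve_right h
  | succ k ih =>
    intro P f U hU horth hfull
    have hdif : ∀ a b, a ≠ b → a ∉ P → b ∉ P → ∀ Z ∈ sub (insert a (insert b P)) k,
        dif a b f Z = 0 := by
      intro a b hab ha hb
      refine ih (insert a (insert b P)) (dif a b f) {v | ∃ u ∈ U, v = dif a b u} ?_ ?_ ?_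
      · rintro v ⟨u, hu, rfl⟩ t ht
        refine ⟨mv t u, hU u hu t fun z hz => ht z (mem_insert_of_mem (mem_insert_of_mem hz)), ?_⟩
        funext Z
        have h1 : t.toEmbedding a = a := ht a (mem_insert_self _ _)
        have h2 : t.toEmbedding b = b := ht b (mem_insert_of_mem (mem_insert_self _ _))
        change u (insert a (Z.map t.toEmbedding)) - u (insert b (Z.map t.toEmbedding)) =
          u ((insert a Z).map t.toEmbedding) - u ((insert b Z).map t.toEmbedding)
        rw [map_insert, map_insert, h1, h2]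
      · rintro v ⟨u, hu, rfl⟩
        rw [← pair_dif hab ha hb, horth u hu, horth _ (hU u hu _ fun z hz => ?_), sub_zero]
        exact Equiv.swap_apply_of_ne_of_ne (fun h => ha (h ▸ hz)) (fun h => hb (h ▸ hz))
      · intro j hj
        obtain ⟨u, hu, x, y, hd, hx, hy, h⟩ := hfull (j + 1) (by omega)
        -- a permutation taking the first pair to `a`, `b`
        obtain ⟨t, ht, hta, htb⟩ : ∃ t : Equiv.Perm Ω, (∀ z ∈ P, t z = z) ∧ t (x 0) = a ∧
            t (y 0) = b := by
          let t₁ := Equiv.swap (x 0) a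
          have h1 : ∀ z ∈ P, t₁ z = z := fun z hz =>
            Equiv.swap_apply_of_ne_of_ne (fun h => hx 0 (h ▸ hz)) (fun h => ha (h ▸ hz))
          have h2 : t₁ (x 0) = a := Equiv.swap_apply_left _ _
          have h3 : t₁ (y 0) ≠ a := by
            rw [← h2]
            exact fun h => hd.2.2 0 0 (t₁.injective h).symm
          have h4 : t₁ (y 0) ∉ P := by
            intro hh
            have h5 : t₁ (y 0) = y 0 := t₁.injective (h1 _ hh)
            exact hy 0 (h5 ▸ hh)
          let t₂ := Equiv.swap (t₁ (y 0)) b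
          refine ⟨t₂ * t₁, fun z hz => ?_, ?_, ?_⟩
          · rw [Equiv.Perm.mul_apply, h1 z hz]
            exact Equiv.swap_apply_of_ne_of_ne (fun h => h4 (h ▸ hz)) (fun h => hb (h ▸ hz))
          · rw [Equiv.Perm.mul_apply, h2]
            exact Equiv.swap_apply_of_ne_of_ne h3.symm hab
          · rw [Equiv.Perm.mul_apply]
            exact Equiv.swap_apply_left _ _
        have ht' : ∀ z ∈ P, t⁻¹ z = z := fun z hz => by
          rw [Equiv.Perm.inv_eq_iff_eq, ht z hz]
        have hmem : mv t⁻¹ u ∈ U := hU u hu _ ht'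
        have hd' : Diff (fun i => t (x i)) (fun i => t (y i)) :=
          ⟨t.injective.comp hd.1, t.injective.comp hd.2.1, fun i i' h => hd.2.2 i i'
            (t.injective h)⟩
        have hP : ∀ z, z ∉ P → t z ∉ P := fun z hz hh => hz (by
          have h5 : t z = z := t.injective (ht _ hh)
          exact h5 ▸ hh)
        have hne : alt P (k + 1) (fun i => t (x i)) (fun i => t (y i)) (mv t⁻¹ u) ≠ 0 := by
          rw [alt_mv _ _ ht']
          simpa using h
        rw [alt_succ hd' (fun i => hP _ (hx i)) (fun i => hP _ (hy i))] at hne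
        rw [hta, htb] at hne
        refine ⟨dif a b (mv t⁻¹ u), ⟨_, hmem, rfl⟩, fun i => t (x i.succ), fun i => t (y i.succ),
          ⟨fun i i' h => Fin.succ_injective _ (hd'.1 h), fun i i' h => Fin.succ_injective _
            (hd'.2.1 h), fun i i' => hd'.2.2 _ _⟩, fun i hh => ?_, fun i hh => ?_, hne⟩
        · rcases mem_insert.1 hh with hh | hh
          · rw [← hta] at hh
            exact Fin.succ_ne_zero i (hd'.1 hh)
          · rcases mem_insert.1 hh with hh | hh
            · rw [← htb] at hh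
              exact hd'.2.2 _ _ hh
            · exact hP _ (hx _) hh
        · rcases mem_insert.1 hh with hh | hh
          · rw [← hta] at hh
            exact hd'.2.2 _ _ hh.symm
          · rcases mem_insert.1 hh with hh | hh
            · rw [← htb] at hh
              exact Fin.succ_ne_zero i (hd'.2.1 hh)
            · exact hP _ (hy _) hh
    intro Y hY
    obtain ⟨u, hu, x, y, -, -, -, h⟩ := hfull 0 (Nat.zero_le _)
    have h1 := horth u hu
    unfold pair at h1
    unfold alt at h
    rw [filter_true_of_mem (fun _ _ i => i.elim0)] at h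
    simp only [Fin.prod_univ_zero, one_mul] at h
    have h2 : ∀ Y' ∈ sub P (k + 1), f Y' * u Y' = f Y * u Y' := by
      intro Y' hY'
      rw [const_of_exchange f hdif _ Y hY Y' hY' rfl]
    rw [sum_congr rfl h2, ← mul_sum] at h1
    exact (mul_eq_zero.1 h1).resolve_right h

end

end Pool.Agent.H845.Orb
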