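import Mathlib
import Pool.Agent.H845.Orb.Crit
import Pool.Agent.H845.Orb.Sub
import Pool.Agent.H845.Orb.FreeDefs
import Pool.Graph.R_pool_sql_team_seeded_1acbe0a2.Y156.P.Main

/-!
# Weil numbers in fields whose embeddings are indexed by subsets
-/

set_option autoImplicit false
set_option linter.unusedSectionVars false
set_option linter.unusedVariables false

namespace Pool.Agent.H845.Orb

open NumberField Module Polynomial Pool.Agent.TH170.MF Pool.Agent.Y156.P Pool.Agent.TH170
open Pool.Agent.Y137.MV (MaximalAngleRank)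
open scoped IntermediateField

section

variable {p a : ℕ} [hp : Fact p.Prime] {I : Type} [Fintype I] {K : I → Type}
  [∀ i, Field (K i)] [∀ i, NumberField (K i)] [∀ i, IsCMField (K i)] {π : ∀ i, K i}

/-- The odd relation. -/
theorem odd_rel (h0 : ∀ i, π i ≠ 0) {n : Emb K → ℤ} {r : ℤ}
    (h1 : ∏ x : Emb K, val π x ^ n x = ((p ^ a : ℕ) : ℂ) ^ r) :
    ∏ x : Emb K, val π x ^ (n x - n (cj x)) = 1 := by
  have h2 := congrArg (starRingEnd ℂ) h1
  rw [map_prod, map_zpow₀, Complex.conj_natCast] at h2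
  have h3 : ∏ x : Emb K, (starRingEnd ℂ) (val π x ^ n x) =
      ∏ x : Emb K, val π x ^ n (cj x) := by
    refine Fintype.prod_equiv cjE _ _ fun x => ?_
    change _ = val π (cj x) ^ n (cj (cj x))
    rw [cj_cj, map_zpow₀]
    rfl
  rw [h3] at h2
  rw [Finset.prod_congr rfl fun x _ => zpow_sub₀ (val_ne_zero h0 x) (n x) (n (cj x)),
    Finset.prod_div_distrib, h1, h2, div_self]
  refine zpow_ne_zero _ ?_
  push_cast
  exact pow_ne_zero _ (Nat.cast_ne_zero.2 hp.out.ne_zero)

end

section

variable {Ω : Type} [Fintype Ω] [DecidableEq Ω]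

theorem subset_zero {k : ℕ} {s f : Finset Ω → ℝ} (hs : HasAlternatingSums k s)
    (h : ∀ t : Equiv.Perm Ω, ∑ Y ∈ Finset.powersetCard k Finset.univ,
      f Y * s (Y.map t.toEmbedding) = 0) (Y : Finset Ω) (hY : Y.card = k) : f Y = 0 := by
  classical
  have hsub : sub (∅ : Finset Ω) k = Finset.powersetCard k Finset.univ := by
    unfold sub
    rw [Finset.compl_empty]
  refine eq_zero_of_full k ∅ f {u | ∃ t : Equiv.Perm Ω, u = mv t s} ?_ ?_ ?_ Y
    (mem_sub.2 ⟨fun y _ => Finset.notMem_empty y, hY⟩)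
  · rintro u ⟨t, rfl⟩ t' -
    refine ⟨t * t', ?_⟩
    funext Z
    unfold mv
    rw [Finset.map_map]
    rfl
  · rintro u ⟨t, rfl⟩
    unfold pair
    rw [hsub]
    exact h t
  · intro j hj
    obtain ⟨x, y, hd, hne⟩ := hs j hj
    refine ⟨s, ⟨1, ?_⟩, x, y, hd, fun _ => Finset.notMem_empty _, fun _ => Finset.notMem_empty _,
      ?_⟩
    · funext Z
      unfold mv
      congr 1
      ext z
      simp only [Finset.mem_map_equiv]
      exact Iff.rfl
    · unfold alt
      intro h0
      apply hne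
      rw [← h0, hsub]
      refine Finset.sum_congr ?_ fun Z _ => ?_
      · ext Z
        simp only [Finset.mem_filter, Finset.mem_powersetCard_univ, Finset.mem_univ, true_and]
      · congr 1
        refine Finset.prod_congr rfl fun i _ => ?_
        congr 1

variable {p a : ℕ} [hp : Fact p.Prime] {K : Type} [Field K] [NumberField K] [IsCMField K]

/-- **Weil numbers in subset fields with nonvanishing alternating sums have maximal angle rank.** -/
theorem angle_of_subset {π : K} (hw : π * IsCMField.complexConj K π = (p : K) ^ a) {k : ℕ}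
    {e : Finset Ω → (K →+* PadicAlgCl p)} (he : IsSubsetField k e)
    (hs : HasAlternatingSums k (dev p a e π)) :
    MaximalAngleRank (p ^ a) (fun _ : Unit => π) := by
  classical
  obtain ⟨ν⟩ := exists_iso p
  intro r₀ n₀ hrel₀ i φ₀
  have h0 : ∀ _ : Unit, π ≠ 0 := pi_ne_zero (K := fun _ : Unit => K) (π := fun _ => π) fun _ => hw
  let r : (K →+* ℂ) → ℤ := fun φ => n₀ ⟨(), φ⟩ - n₀ ⟨(), ComplexEmbedding.conjugate φ⟩
  have hR : ∏ φ : K →+* ℂ, φ π ^ r φ = 1 := by
    have h1 := odd_rel (K := fun _ : Unit => K) (π := fun _ => π) h0 (n := n₀) hrel₀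
    rw [Fintype.prod_sigma, Fintype.prod_unique] at h1
    exact h1
  have hodd : ∀ φ, r (ComplexEmbedding.conjugate φ) = - r φ := by
    intro φ
    simp only [r]
    have h1 : ComplexEmbedding.conjugate (ComplexEmbedding.conjugate φ) = φ := by simp
    rw [h1]
    ring
  let E : Finset Ω → (K →+* ℂ) := fun Y => (ν : PadicAlgCl p →+* ℂ).comp (e Y)
  have hcomp : ∀ Y, (ν : PadicAlgCl p →+* ℂ).comp ((e Y).comp
      (IsCMField.complexConj K : K →+* K)) = ComplexEmbedding.conjugate (E Y) := by
    intro Y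
    ext x
    have h1 := IsCMField.complexEmbedding_complexConj (K := K) (E Y) x
    rw [ComplexEmbedding.conjugate_coe_eq, ← h1]
    rfl
  have hinjν : ∀ α β : K →+* PadicAlgCl p, (ν : PadicAlgCl p →+* ℂ).comp α =
      (ν : PadicAlgCl p →+* ℂ).comp β → α = β := by
    intro α β h
    ext x
    exact ν.injective (RingHom.congr_fun h x)
  have hcov : ∀ φ : K →+* ℂ, ∃ Y : Finset Ω, Y.card = k ∧
      (φ = E Y ∨ φ = ComplexEmbedding.conjugate (E Y)) := by
    intro φ
    obtain ⟨Y, hY, h⟩ := he.cover ((ν.symm : ℂ →+* PadicAlgCl p).comp φ)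
    have h1 : (ν : PadicAlgCl p →+* ℂ).comp ((ν.symm : ℂ →+* PadicAlgCl p).comp φ) = φ := by
      ext x
      exact ν.apply_symm_apply _
    refine ⟨Y, hY, ?_⟩
    rcases h with h | h
    · left
      rw [← h1, h]
    · right
      rw [← h1, h, hcomp]
  have hinj : ∀ Y Y' : Finset Ω, Y.card = k → Y'.card = k → E Y = E Y' → Y = Y' :=
    fun Y Y' h h' hh => he.injective Y Y' h h' (hinjν _ _ hh)
  have hne : ∀ Y Y' : Finset Ω, Y.card = k → Y'.card = k →
      E Y ≠ ComplexEmbedding.conjugate (E Y') := by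
    intro Y Y' h h' hh
    rw [← hcomp] at hh
    exact he.ne_conj Y Y' h h' (hinjν _ _ hh)
  have hsum : ∀ F : (K →+* ℂ) → ℝ, ∑ φ, F φ =
      ∑ Y ∈ Finset.powersetCard k Finset.univ, (F (E Y) + F (ComplexEmbedding.conjugate (E Y))) := by
    intro F
    have hu : (Finset.univ : Finset (K →+* ℂ)) =
        (Finset.powersetCard k Finset.univ).image E ∪
          (Finset.powersetCard k Finset.univ).image fun Y => ComplexEmbedding.conjugate (E Y) := by
      symm
      rw [Finset.eq_univ_iff_forall]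
      intro φ
      obtain ⟨Y, hY, h⟩ := hcov φ
      rw [Finset.mem_union, Finset.mem_image, Finset.mem_image]
      rcases h with h | h
      · exact Or.inl ⟨Y, Finset.mem_powersetCard_univ.2 hY, h.symm⟩
      · exact Or.inr ⟨Y, Finset.mem_powersetCard_univ.2 hY, h.symm⟩
    rw [hu, Finset.sum_union, Finset.sum_image, Finset.sum_image, Finset.sum_add_distrib]
    · intro Y hY Y' hY' h
      have h1 := congrArg ComplexEmbedding.conjugate h
      simp only [star_star] at h1
      refine hinj Y Y' (Finset.mem_powersetCard_univ.1 hY) (Finset.mem_powersetCard_univ.1 hY') ?_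
      simpa using h1
    · intro Y hY Y' hY' h
      exact hinj Y Y' (Finset.mem_powersetCard_univ.1 hY) (Finset.mem_powersetCard_univ.1 hY') h
    · rw [Finset.disjoint_left]
      intro φ h1 h2
      obtain ⟨Y, hY, rfl⟩ := Finset.mem_image.1 h1
      obtain ⟨Y', hY', h⟩ := Finset.mem_image.1 h2
      exact hne Y Y' (Finset.mem_powersetCard_univ.1 hY) (Finset.mem_powersetCard_univ.1 hY') h.symm
  -- the relation between the slopes
  have hslope : ∀ t : Equiv.Perm Ω, ∑ Y ∈ Finset.powersetCard k Finset.univ,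
      ((r (E Y) : ℤ) : ℝ) * dev p a e π (Y.map t.toEmbedding) = 0 := by
    intro t
    obtain ⟨σ, hσ⟩ := he.perm t
    have h1 := congrArg (fun z => Real.log ‖σ (ν.symm z)‖) hR
    simp only [map_prod, map_zpow₀, map_one, norm_prod, norm_zpow, norm_one, Real.log_one] at h1
    have hv0 : ∀ φ : K →+* ℂ, ‖σ (ν.symm (φ π))‖ ≠ 0 := by
      intro φ
      rw [norm_ne_zero_iff]
      exact (_root_.map_ne_zero _).2 ((_root_.map_ne_zero _).2 ((_root_.map_ne_zero φ).2 (h0 ())))
    rw [Real.log_prod (fun φ _ => zpow_ne_zero _ (hv0 φ))] at h1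
    simp only [Real.log_zpow] at h1
    rw [hsum] at h1
    have hpa : ∀ Y : Finset Ω, Real.log ‖σ (ν.symm (E Y π))‖ +
        Real.log ‖σ (ν.symm (ComplexEmbedding.conjugate (E Y) π))‖ =
          Real.log ‖(p : PadicAlgCl p) ^ a‖ := by
      intro Y
      rw [← Real.log_mul (hv0 _) (hv0 _), ← norm_mul, ← map_mul, ← map_mul]
      have h2 : E Y π * ComplexEmbedding.conjugate (E Y) π = (p : ℂ) ^ a := by
        rw [ComplexEmbedding.conjugate_coe_eq, ← IsCMField.complexEmbedding_complexConj,
          ← map_mul, hw, map_pow, map_natCast]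
      rw [h2, map_pow, map_pow, map_natCast, map_natCast]
    have h3 : ∀ Y ∈ Finset.powersetCard k (Finset.univ : Finset Ω),
        ((r (E Y) : ℤ) : ℝ) * Real.log ‖σ (ν.symm (E Y π))‖ +
          ((r (ComplexEmbedding.conjugate (E Y)) : ℤ) : ℝ) *
            Real.log ‖σ (ν.symm (ComplexEmbedding.conjugate (E Y) π))‖ =
          2 * (((r (E Y) : ℤ) : ℝ) * dev p a e π (Y.map t.toEmbedding)) := by
      intro Y hY
      have h4 := hpa Y
      have h5 : σ (ν.symm (E Y π)) = e (Y.map t.toEmbedding) π := by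
        rw [← hσ Y (Finset.mem_powersetCard_univ.1 hY)]
        change σ (ν.symm (ν (e Y π))) = σ (e Y π)
        rw [RingEquiv.symm_apply_apply]
      unfold dev
      rw [hodd, h5]
      rw [h5] at h4
      push_cast
      linear_combination (-((r (E Y) : ℤ) : ℝ)) * h4
    rw [Finset.sum_congr rfl h3, ← Finset.mul_sum] at h1
    have h6 := (mul_eq_zero.1 h1).resolve_left two_ne_zero
    exact h6
  have hzero : ∀ Y : Finset Ω, Y.card = k → r (E Y) = 0 := by
    intro Y hY
    have h1 := subset_zero (f := fun Y => ((r (E Y) : ℤ) : ℝ)) hs hslope Y hY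
    exact_mod_cast h1
  have hfin : r φ₀ = 0 := by
    obtain ⟨Y, hY, h | h⟩ := hcov φ₀
    · rw [h]
      exact hzero Y hY
    · rw [h, hodd, hzero Y hY, neg_zero]
  exact sub_eq_zero.1 hfin

end

end Pool.Agent.H845.Orb
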