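import Mathlib
import Pool.Agent.H845.Orb.Fam
import Pool.Agent.H845.Orb.SubAngle
import Pool.Graph.R_seed8.Y1.CT.UnrelRel

/-!
# Numbers free from a family of Weil numbers
-/

set_option autoImplicit false
set_option linter.unusedSectionVars false
set_option linter.unusedVariables false

namespace Pool.Agent.H845.Orb

open NumberField Module Polynomial Pool.Agent.TH170.MF Pool.Agent.Y156.P Pool.Agent.H977R3.CM
  Pool.Agent.Y1.CT Pool.Agent.Y1.KN Pool.Agent.H204R3.CM Pool.Agent.TH170 Pool.Agent.W484.HS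
open Pool.Agent.Y137.MV (MaximalAngleRank)
open scoped IntermediateField

section

variable {p a : ℕ} [hp : Fact p.Prime] {I : Type} [Fintype I] {K : I → Type}
  [∀ i, Field (K i)] [∀ i, NumberField (K i)] [∀ i, IsCMField (K i)] {π : ∀ i, K i}

/-- The exponents in a relation with a number fixed by an automorphism up to a power. -/
theorem odd_invariant (h0 : ∀ i, π i ≠ 0) (hang : MaximalAngleRank (p ^ a) π) {ρ : ℂ}
    (hρ : ρ ≠ 0) {N : ℕ} (hN : 0 < N) {c : ℤ} {n : Emb K → ℤ}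
    (h : ρ ^ N * ∏ x : Emb K, val π x ^ n x = ((p ^ a : ℕ) : ℂ) ^ c) {τ : ℂ ≃+* ℂ} {t : ℕ}
    (ht : 0 < t) (hτ : τ (ρ ^ t) = ρ ^ t) (x : Emb K) :
    n (act τ x) - n (cj (act τ x)) = n x - n (cj x) := by
  classical
  have hA : ρ ^ (N * t) * ∏ x : Emb K, val π x ^ (t * n x) = ((p ^ a : ℕ) : ℂ) ^ (c * t) := by
    have h1 := congrArg (fun z => z ^ t) h
    simp only [mul_pow, ← Finset.prod_pow] at h1
    rw [← pow_mul] at h1
    rw [zpow_mul, zpow_natCast, ← h1]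
    congr 1
    refine Finset.prod_congr rfl fun x _ => ?_
    rw [mul_comm, zpow_mul, zpow_natCast]
  have hB : ρ ^ (N * t) * ∏ x : Emb K, val π (act τ x) ^ (t * n x) =
      ((p ^ a : ℕ) : ℂ) ^ (c * t) := by
    have h1 := congrArg τ hA
    rw [map_mul, map_prod, map_zpow₀, map_natCast] at h1
    have h2 : τ (ρ ^ (N * t)) = ρ ^ (N * t) := by
      rw [mul_comm, pow_mul, map_pow, hτ]
    rw [h2] at h1
    rw [← h1]
    congr 1
    refine Finset.prod_congr rfl fun x _ => ?_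
    rw [map_zpow₀]
    rfl
  have hC : ∏ x : Emb K, val π (act τ x) ^ (t * n x) = ∏ x : Emb K, val π x ^ (t * n x) :=
    mul_left_cancel₀ (pow_ne_zero _ hρ) (hB.trans hA.symm)
  have hD : ∏ x : Emb K, val π (act τ x) ^ (t * n x) =
      ∏ x : Emb K, val π x ^ (t * n ((act τ).symm x)) := by
    refine Fintype.prod_equiv (act τ) _ _ fun x => ?_
    rw [Equiv.symm_apply_apply]
  rw [hD] at hC
  have hE : ∏ x : Emb K, (x.2 (π x.1)) ^ ((t : ℤ) * n ((act τ).symm x) - t * n x) =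
      ((p ^ a : ℕ) : ℂ) ^ (0 : ℤ) := by
    have h1 : ∀ x : Emb K, (x.2 (π x.1)) ^ ((t : ℤ) * n ((act τ).symm x) - t * n x) =
        val π x ^ ((t : ℤ) * n ((act τ).symm x)) / val π x ^ ((t : ℤ) * n x) := fun x =>
      zpow_sub₀ (val_ne_zero h0 x) _ _
    rw [Finset.prod_congr rfl fun x _ => h1 x, Finset.prod_div_distrib, hC, zpow_zero, div_self]
    exact Finset.prod_ne_zero_iff.2 fun x _ => zpow_ne_zero _ (val_ne_zero h0 x)
  have hF := hang 0 _ hE (act τ x).1 (act τ x).2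
  have e1 : (⟨(act τ x).1, (act τ x).2⟩ : Emb K) = act τ x := rfl
  have e2 : (⟨(act τ x).1, ComplexEmbedding.conjugate (act τ x).2⟩ : Emb K) = cj (act τ x) := rfl
  have e3 : (act τ).symm (cj (act τ x)) = cj x := by
    rw [Equiv.symm_apply_eq, act_cj]
  rw [e1, e2, Equiv.symm_apply_apply, e3] at hF
  have ht0 : (t : ℤ) ≠ 0 := by exact_mod_cast ht.ne'
  apply mul_left_cancel₀ ht0
  linarith

/-- Unrelated numbers are free. -/
theorem freeFrom_of_unrelated (h0 : ∀ i, π i ≠ 0) (hang : MaximalAngleRank (p ^ a) π) {ρ : ℂ}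
    (hρ : Unrelated K ρ) : FreeFrom (p ^ a) π ρ := by
  refine ⟨hρ.1, fun N c n hN h i φ => ?_⟩
  have h1 := hρ.2 i (fun ψ => ((n ⟨i, ψ⟩ - n ⟨i, ComplexEmbedding.conjugate ψ⟩ : ℤ) : ℚ))
    (fun ψ => by
      have e : ComplexEmbedding.conjugate (ComplexEmbedding.conjugate ψ) = ψ := by simp
      rw [e]
      push_cast
      ring) ?_
  · have h2 := congrFun h1 φ
    simp only [Pi.zero_apply, Int.cast_eq_zero] at h2
    exact sub_eq_zero.1 h2
  · rintro τ ⟨t, ht, hτ⟩ ψ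
    have h2 := odd_invariant h0 hang hρ.1 hN (n := n) h ht hτ ⟨i, ψ⟩
    have h3 : n ⟨i, (τ : ℂ →+* ℂ).comp ψ⟩ -
        n ⟨i, ComplexEmbedding.conjugate ((τ : ℂ →+* ℂ).comp ψ)⟩ =
          n ⟨i, ψ⟩ - n ⟨i, ComplexEmbedding.conjugate ψ⟩ := h2
    simp only [h3]

/-- There are no relations with free numbers. -/
theorem exactPair_of_free (hw : ∀ i, π i * IsCMField.complexConj (K i) (π i) = (p : K i) ^ a)
    (f : I → ℤ[X]) (hf : ∀ i, IsPolyOf (π i) (f i)) (s : ℕ) (hs : 0 < s) (ρ : ℂ)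
    (hρ : FreeFrom (p ^ a) π ρ) :
    ExactPairK (fun z : Root f => (z : ℂ) ^ s) (((p ^ a : ℕ) : ℂ) ^ s) ρ := by
  classical
  intro n c N hN hn ys hlen hrel hpw
  have h0 := pi_ne_zero hw
  have hz : ∀ z : Root f, ∃ y : Emb K, val π y = z := by
    rintro ⟨z, i, hi⟩
    obtain ⟨φ, hφ⟩ := (hf i).2 z hi
    exact ⟨⟨i, φ⟩, hφ⟩
  choose idx hidx using hz
  let cnt : Emb K → ℕ := fun y => (ys.map idx).count y
  have hrel1 : ((∏ y, val π y ^ (s * cnt y)) * ρ) ^ N = ((((p ^ a : ℕ) : ℂ) ^ s) ^ c) ^ N := by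
    rw [← hrel, prod_count idx (val π) (fun z : Root f => (z : ℂ)) (fun z => (hidx z).symm) s ys]
  have hs0 : (((s * N : ℕ)) : ℤ) ≠ 0 := by
    exact_mod_cast (Nat.mul_pos hs hN).ne'
  have hcnt : ∀ y : Emb K, cnt y = cnt (cj y) := by
    rintro ⟨i, φ⟩
    have h1 := hρ.2 N ((s : ℤ) * (c * N)) (fun y => ((s * N : ℕ) : ℤ) * cnt y) hN (by
      rw [mul_pow, mul_comm] at hrel1
      have e1 : ∏ y : Emb K, (y.2 (π y.1)) ^ (((s * N : ℕ) : ℤ) * (cnt y : ℤ)) =
          (∏ y, val π y ^ (s * cnt y)) ^ N := by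
        rw [← Finset.prod_pow]
        refine Finset.prod_congr rfl fun y _ => ?_
        change val π y ^ _ = _
        rw [← pow_mul, ← zpow_natCast]
        congr 1
        push_cast
        ring
      rw [e1, hrel1, ← zpow_natCast, ← zpow_natCast, ← zpow_mul, ← zpow_mul]) i φ
    have h2 := mul_left_cancel₀ hs0 h1
    exact_mod_cast h2
  -- the first element of the list
  obtain ⟨z₀, hz₀⟩ := List.exists_mem_of_length_pos (l := ys) (by omega)
  have h1 : 0 < cnt (idx z₀) := List.count_pos_iff.2 (List.mem_map_of_mem hz₀)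
  rw [hcnt] at h1
  obtain ⟨z₁, hz₁, h2⟩ := List.mem_map.1 (List.count_pos_iff.1 h1)
  have hne : z₀ ≠ z₁ := by
    rintro rfl
    exact cj_ne _ h2.symm
  have hsymm : Std.Symm (fun y y' : Root f => (y : ℂ) ^ s * (y' : ℂ) ^ s ≠
      ((p ^ a : ℕ) : ℂ) ^ s) := ⟨by
    intro x y h h'
    exact h (by rw [mul_comm]; exact h')⟩
  refine hpw.forall hz₀ hz₁ hne ?_
  have h3 : (z₁ : ℂ) = val π (cj (idx z₀)) := by
    rw [← hidx z₁, h2]
  change (z₀ : ℂ) ^ s * (z₁ : ℂ) ^ s = _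
  rw [h3, ← hidx z₀, ← mul_pow, val_cj]
  congr 1
  have h4 := congrArg (idx z₀).2 (hw (idx z₀).1)
  rw [map_mul, map_pow, map_natCast] at h4
  change (idx z₀).2 (π (idx z₀).1) * _ = _
  rw [h4]
  push_cast
  rfl

theorem freeFrom_one (h0 : ∀ i, π i ≠ 0) (hang : MaximalAngleRank (p ^ a) π) :
    FreeFrom (p ^ a) π 1 := by
  refine ⟨one_ne_zero, fun N c n hN h i φ => ?_⟩
  rw [one_pow, one_mul] at h
  exact hang c n h i φ

/-- **There are no relations.** -/
theorem noRel_free (hπ : ∀ i, IsSimpleWeil p a (π i)) (hfree : ∀ i, IsFree π i) {f : I → ℤ[X]}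
    (hf : ∀ i, IsPolyOf (π i) (f i)) : NoRel f (p ^ a) (FreeFrom (p ^ a) π) := by
  have hw : ∀ i, π i * IsCMField.complexConj (K i) (π i) = (p : K i) ^ a := fun i => (hπ i).weil
  have hang := angle_of_isFree hw (fun i => gen_one (hπ i)) hfree
  exact ⟨fun i => (hf i).1, freeFrom_one (pi_ne_zero hw) hang, fun s hs ρ hρ =>
    exactPair_of_free hw f hf s hs ρ hρ⟩

theorem not_freeFrom_zero {q : ℕ} : ¬ FreeFrom q π 0 := fun h => h.1 rfl

end

end Pool.Agent.H845.Orb
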