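import Mathlib
import Pool.Agent.H845.Orb.Free

/-!
# The exact criterion for numbers in CM fields to be free from a family of Weil numbers
-/

set_option autoImplicit false
set_option linter.unusedSectionVars false
set_option linter.unusedVariables false

namespace Pool.Agent.H845.Orb

open NumberField Module Polynomial Pool.Agent.TH170.MF Pool.Agent.Y156.P Pool.Agent.H977R3.CM
  Pool.Agent.Y1.CT
open Pool.Agent.Y137.MV (MaximalAngleRank)
open scoped IntermediateField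

section

variable {p a : ℕ} [hp : Fact p.Prime] {I : Type} [Fintype I] {K : I → Type}
  [∀ i, Field (K i)] [∀ i, NumberField (K i)] [∀ i, IsCMField (K i)] {π : ∀ i, K i}
  {F : Type} [Field F] [NumberField F] [IsCMField F]

open Classical in
theorem map_ratio' (hgen : ∀ i, ℚ⟮π i⟯ = ⊤) (φ : F →+* ℂ) (k : I) {g : F[X]}
    (hg : g ∈ factors F (π k)) :
    φ (ratio g) = ∏ ψ : K k →+* ℂ with mp φ (ψ (π k)) = g,
      val π ⟨k, ψ⟩ / val π (cj ⟨k, ψ⟩) := by
  unfold ratio quo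
  rw [map_div₀, IsCMField.complexEmbedding_complexConj, coeff_zero_eq φ (hgen k) hg, map_mul,
    map_pow, map_neg, map_one, map_prod, mul_div_mul_left _ _ (pow_ne_zero _ (by norm_num)),
    ← Finset.prod_div_distrib]
  rfl

open Classical in
theorem map_prod_ratio' (hgen : ∀ i, ℚ⟮π i⟯ = ⊤) (φ : F →+* ℂ) (n : I → F[X] → ℤ) :
    φ (∏ k, ∏ g ∈ factors F (π k), ratio g ^ n k g) =
      ∏ x : Emb K, (val π x / val π (cj x)) ^ n x.1 (mp φ (val π x)) := by
  rw [map_prod, Fintype.prod_sigma]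
  refine Finset.prod_congr rfl fun k _ => ?_
  rw [map_prod]
  have h1 : ∏ ψ : K k →+* ℂ, (val π ⟨k, ψ⟩ / val π (cj ⟨k, ψ⟩)) ^ n k (mp φ (val π ⟨k, ψ⟩)) =
      ∏ g ∈ factors F (π k), ∏ ψ : K k →+* ℂ with mp φ (ψ (π k)) = g,
        (val π ⟨k, ψ⟩ / val π (cj ⟨k, ψ⟩)) ^ n k (mp φ (val π ⟨k, ψ⟩)) :=
    (Finset.prod_fiberwise_of_maps_to (fun ψ _ => mp_mem_factors φ ψ) _).symm
  refine Eq.trans ?_ h1.symm
  refine Finset.prod_congr rfl fun g hg => ?_
  rw [map_zpow₀, map_ratio' hgen φ k hg, ← Finset.prod_zpow]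
  refine Finset.prod_congr rfl fun ψ hψ => ?_
  rw [Finset.mem_filter] at hψ
  have h2 : mp φ (val π ⟨k, ψ⟩) = g := hψ.2
  rw [h2]

/-- The minimal polynomial of the complex conjugate. -/
theorem mp_conj (φ : F →+* ℂ) {z : ℂ} (hz : IsIntegral ℚ z) :
    mp φ ((starRingEnd ℂ) z) = (mp φ z).map (IsCMField.complexConj F : F →+* F) := by
  refine (eq_mp φ ?_ ((mp_monic φ hz).map _) ?_).symm
  · have h1 : φ.comp (IsCMField.complexConj F : F →+* F) = (starRingEnd ℂ).comp φ := by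
      ext y
      exact IsCMField.complexEmbedding_complexConj (K := F) φ y
    rw [eval₂_map, h1, ← hom_eval₂, eval_mp, map_zero]
  · have h2 : (mp φ z).map (IsCMField.complexConj F : F →+* F) =
        (mapEquiv (IsCMField.complexConj F : F ≃+* F)) (mp φ z) := rfl
    rw [h2]
    exact (MulEquiv.irreducible_iff _).2 (mp_irreducible φ hz)

/-- **The exact criterion for a number in a CM field to be free from the family.** -/
theorem freeFrom_iff (hw : ∀ i, π i * IsCMField.complexConj (K i) (π i) = (p : K i) ^ a)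
    (hgen : ∀ i, ℚ⟮π i⟯ = ⊤) (hang : MaximalAngleRank (p ^ a) π) (x : F) (w : ℕ)
    (hx : x * IsCMField.complexConj F x = ((p : F) ^ a) ^ w) (φ : F →+* ℂ) :
    FreeFrom (p ^ a) π (φ x) ↔ ∀ (N : ℕ) (n : I → F[X] → ℤ), 0 < N →
      (x / IsCMField.complexConj F x) ^ N = ∏ k, ∏ g ∈ factors F (π k), ratio g ^ n k g →
        ∀ k, ∀ g ∈ factors F (π k), n k g = n k (g.map (IsCMField.complexConj F : F →+* F)) := by
  classical
  have h0 := pi_ne_zero hw
  have hp0 : (p : ℂ) ≠ 0 := Nat.cast_ne_zero.2 hp.out.ne_zero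
  have hq0 : ((p ^ a : ℕ) : ℂ) ≠ 0 := by
    push_cast
    exact pow_ne_zero _ hp0
  have hx0 : x ≠ 0 := by
    rintro rfl
    rw [zero_mul] at hx
    exact pow_ne_zero w (pow_ne_zero a (Nat.cast_ne_zero.2 hp.out.ne_zero)) hx.symm
  have hρ0 : φ x ≠ 0 := (_root_.map_ne_zero φ).2 hx0
  have hρ1 : (starRingEnd ℂ) (φ x) ≠ 0 := (_root_.map_ne_zero _).2 hρ0
  constructor
  · intro hfree N n hN heq k g hg
    have h1 := congrArg φ heq
    rw [map_prod_ratio' hgen φ n, map_pow, map_div₀, IsCMField.complexEmbedding_complexConj,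
      prod_div_cj h0 fun x => n x.1 (mp φ (val π x))] at h1
    have h2 : φ x * (starRingEnd ℂ) (φ x) = ((p ^ a : ℕ) : ℂ) ^ w := by
      rw [← IsCMField.complexEmbedding_complexConj, ← map_mul, hx]
      simp
    have h3 : φ x / (starRingEnd ℂ) (φ x) = φ x ^ 2 * (((p ^ a : ℕ) : ℂ) ^ w)⁻¹ := by
      rw [← h2, sq]
      field_simp
    let e : Emb K → ℤ := fun y => n y.1 (mp φ (val π y)) - n (cj y).1 (mp φ (val π (cj y)))
    have h4 : φ x ^ (2 * N) * ∏ y : Emb K, (y.2 (π y.1)) ^ (-(e y)) =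
        ((p ^ a : ℕ) : ℂ) ^ ((w * N : ℕ) : ℤ) := by
      have h5 : ∏ y : Emb K, (y.2 (π y.1)) ^ (-(e y)) =
          (∏ y : Emb K, val π y ^ e y)⁻¹ := by
        rw [← Finset.prod_inv_distrib]
        exact Finset.prod_congr rfl fun y _ => zpow_neg _ _
      rw [h5]
      have h6 : ∏ y : Emb K, val π y ^ e y = (φ x / (starRingEnd ℂ) (φ x)) ^ N := h1.symm
      rw [h6, h3, mul_pow, zpow_natCast, inv_pow, ← pow_mul, ← pow_mul, mul_inv, inv_inv,
        ← mul_assoc, mul_inv_cancel₀ (pow_ne_zero _ hρ0), one_mul]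
    have h7 := hfree.2 (2 * N) ((w * N : ℕ) : ℤ) (fun y => -(e y)) (by omega) h4
    obtain ⟨ψ, rfl⟩ : ∃ ψ : K k →+* ℂ, g = mp φ (ψ (π k)) := by
      obtain ⟨h1, h2, h3⟩ := mem_factors_iff.1 hg
      have hdeg : 0 < (g.map φ).degree := by
        rw [degree_map]
        exact degree_pos_of_irreducible h2
      obtain ⟨z, hz⟩ := IsAlgClosed.exists_root (g.map φ) hdeg.ne'
      rw [IsRoot.def, eval_map] at hz
      have h5 : z ∈ (minpoly ℚ (π k)).rootSet ℂ := by
        rw [mem_rootSet]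
        refine ⟨minpoly.ne_zero (Algebra.IsIntegral.isIntegral (π k)), ?_⟩
        obtain ⟨h, hh⟩ := h3
        have h6 : eval₂ φ z ((minpoly ℚ (π k)).map (algebraMap ℚ F)) = 0 := by
          rw [hh, eval₂_mul, hz, zero_mul]
        rw [eval₂_map] at h6
        rw [aeval_def, ← h6]
        congr 1
        exact Subsingleton.elim _ _
      rw [← NumberField.Embeddings.range_eval_eq_rootSet_minpoly (K k) ℂ (π k)] at h5
      obtain ⟨ψ, hψ⟩ := h5
      refine ⟨ψ, ?_⟩
      have hψ' : ψ (π k) = z := hψ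
      rw [hψ']
      exact eq_mp φ hz h1 h2
    have h8 := h7 k ψ
    have h9 : -(e ⟨k, ψ⟩) = -(e (cj ⟨k, ψ⟩)) := h8
    simp only [e, cj_cj] at h9
    have h10 : mp φ (val π (cj ⟨k, ψ⟩)) =
        (mp φ (ψ (π k))).map (IsCMField.complexConj F : F →+* F) :=
      mp_conj φ (isIntegral_emb ψ (π k))
    rw [h10] at h9
    change -(n k (mp φ (ψ (π k))) - n k _) = -(n k _ - n k (mp φ (ψ (π k)))) at h9
    omega
  · intro H
    refine ⟨hρ0, fun N c n₀ hN hrel i ψ₀ => ?_⟩
    let r : Emb K → ℤ := fun y => n₀ y - n₀ (cj y)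
    have hodd : ∀ y, r (cj y) = - r y := by
      intro y
      simp only [r, cj_cj]
      ring
    have hinv : ∀ τ : ℂ ≃+* ℂ, (τ : ℂ →+* ℂ).comp φ = φ → ∀ y, r (act τ y) = r y := by
      intro τ hτ y
      refine odd_invariant h0 hang hρ0 hN (n := n₀) hrel one_pos ?_ y
      rw [pow_one]
      exact RingHom.congr_fun hτ x
    -- the odd relation
    have hR : (φ x / (starRingEnd ℂ) (φ x)) ^ N * ∏ y : Emb K, val π y ^ r y = 1 := by
      have h1 : φ x ^ N * ∏ y : Emb K, val π y ^ n₀ y = ((p ^ a : ℕ) : ℂ) ^ c := hrel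
      have h2 := congrArg (starRingEnd ℂ) h1
      rw [map_mul, map_pow, map_prod, map_zpow₀, Complex.conj_natCast] at h2
      have h3 : ∏ y : Emb K, (starRingEnd ℂ) (val π y ^ n₀ y) =
          ∏ y : Emb K, val π y ^ n₀ (cj y) := by
        refine Fintype.prod_equiv cjE _ _ fun y => ?_
        change _ = val π (cj y) ^ n₀ (cj (cj y))
        rw [cj_cj, map_zpow₀]
        rfl
      rw [h3] at h2
      rw [Finset.prod_congr rfl fun y _ => zpow_sub₀ (val_ne_zero h0 y) (n₀ y) (n₀ (cj y)),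
        Finset.prod_div_distrib, div_pow, div_mul_div_comm, h1, h2, div_self]
      exact zpow_ne_zero _ hq0
    let n : I → F[X] → ℤ := fun k g =>
      if hg : ∃ ψ : K k →+* ℂ, mp φ (ψ (π k)) = g then - r ⟨k, hg.choose⟩ else 0
    have hn : ∀ y : Emb K, n y.1 (mp φ (val π y)) = - r y := by
      rintro ⟨k, ψ⟩
      have hg : ∃ ψ' : K k →+* ℂ, mp φ (ψ' (π k)) = mp φ (val π ⟨k, ψ⟩) := ⟨ψ, rfl⟩
      simp only [n]
      rw [dif_pos hg]
      obtain ⟨σ, hσ1, hσ2⟩ := exists_aut_of_mp φ (hgen k) hg.choose_spec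
      have h2 : act σ (⟨k, hg.choose⟩ : Emb K) = ⟨k, ψ⟩ := Sigma.ext rfl (heq_of_eq hσ2)
      rw [← (hinv σ hσ1 ⟨k, hg.choose⟩).symm.trans (congrArg r h2)]
    have hprod : (x / IsCMField.complexConj F x) ^ (2 * N) =
        ∏ k, ∏ g ∈ factors F (π k), ratio g ^ n k g := by
      apply φ.injective
      rw [map_prod_ratio' hgen φ n, map_pow, map_div₀, IsCMField.complexEmbedding_complexConj,
        Finset.prod_congr rfl fun y _ => by rw [hn y], prod_div_cj h0 fun y => - r y]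
      have h1 : ∀ y : Emb K, val π y ^ (- r y - - r (cj y)) = ((val π y ^ r y) ^ 2)⁻¹ := by
        intro y
        rw [hodd, neg_neg, ← zpow_natCast, ← zpow_mul, ← zpow_neg]
        congr 1
        push_cast
        ring
      rw [Finset.prod_congr rfl fun y _ => h1 y, Finset.prod_inv_distrib, Finset.prod_pow,
        mul_comm 2 N, pow_mul, ← inv_pow]
      congr 1
      exact eq_inv_of_mul_eq_one_left hR
    have h1 := H (2 * N) n (by omega) hprod i _ (mp_mem_factors φ ψ₀)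
    have h2 : n i (mp φ (ψ₀ (π i))) = - r ⟨i, ψ₀⟩ := hn ⟨i, ψ₀⟩
    have h3 : n i ((mp φ (ψ₀ (π i))).map (IsCMField.complexConj F : F →+* F)) =
        - r (cj ⟨i, ψ₀⟩) := by
      rw [← mp_conj φ (isIntegral_emb ψ₀ (π i))]
      exact hn (cj ⟨i, ψ₀⟩)
    rw [h2, h3, hodd] at h1
    have h4 : r ⟨i, ψ₀⟩ = 0 := by omega
    exact sub_eq_zero.1 h4

end

end Pool.Agent.H845.Orb
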