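import Mathlib
import Pool.Agent.H845.Orb.CritDefs
import Pool.Agent.H845.Orb.FreeIff
import Pool.Agent.H845.Orb.AbsVal
import Pool.Agent.H845.Orb.Flip

/-!
# The criteria for families of Weil numbers without relations: proofs
-/

set_option autoImplicit false
set_option linter.unusedSectionVars false
set_option linter.unusedVariables false

namespace Pool.Agent.H845.Orb

open NumberField Module Polynomial Pool.Agent.Y156.P Pool.Agent.H977R3.CM
open Pool.Agent.Y137.MV (MaximalAngleRank)
open scoped IntermediateField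

theorem familyCriteria_hold {p a : ℕ} [hp : Fact p.Prime] {I : Type} [Fintype I] {K : I → Type}
    [∀ i, Field (K i)] [∀ i, NumberField (K i)] [∀ i, IsCMField (K i)] {π : ∀ i, K i}
    (hπ : ∀ i, IsSimpleWeil p a (π i)) : FamilyCriteria p a π := by
  have hw : ∀ i, π i * IsCMField.complexConj (K i) (π i) = (p : K i) ^ a := fun i => (hπ i).weil
  have hgen : ∀ i, ℚ⟮π i⟯ = ⊤ := fun i => gen_one (hπ i)
  have h0 := pi_ne_zero hw
  refine ⟨(angle_iff hw hgen).symm, fun i => isFree_iff_abs hπ hgen i, fun hind i => isFree_iff_single h0 hgen hind i,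
    fun hfree => ?_⟩
  have hang := angle_of_isFree hw hgen hfree
  exact ⟨fun ρ hρ => freeFrom_of_unrelated h0 hang hρ, fun F _ _ _ x w hx φ =>
    freeFrom_iff hw hgen hang x w hx φ⟩

theorem sameFieldCriterion_hold {p a : ℕ} [hp : Fact p.Prime] {I : Type} [Fintype I] {K : I → Type}
    [∀ i, Field (K i)] [∀ i, NumberField (K i)] [∀ i, IsCMField (K i)] :
    SameFieldCriterion p a K := by
  intro hind hflip J _ π hπ
  have hw : ∀ i j, π i j * IsCMField.complexConj (K i) (π i j) = (p : K i) ^ a :=
    fun i j => (hπ i j).weil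
  have hgen : ∀ i j, ℚ⟮π i j⟯ = ⊤ := fun i j => gen_one (hπ i j)
  exact (angle_iff (K := fun x : (Σ i, J i) => K x.1) (π := fun x => π x.1 x.2)
    (fun x => hw x.1 x.2) fun x => hgen x.1 x.2).symm.trans
      (angle_iff_indep hw hgen hind hflip)

theorem subsetCriterion_hold {p a : ℕ} [hp : Fact p.Prime] {K : Type} [Field K] [NumberField K]
    [IsCMField K] {π : K} (hπ : IsSimpleWeil p a π) : SubsetCriterion p a π := by
  classical
  intro Ω _ k e he hs
  exact isFree_of_angle (K := fun _ : Unit => K) (π := fun _ => π) (fun _ => hπ.weil)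
    (fun _ => gen_one hπ) (angle_of_subset hπ.weil he hs) ()

theorem freeCriteria_hold : FreeCriteria :=
  ⟨fun p a _ I _ K _ _ _ => ⟨fun π hπ => familyCriteria_hold hπ, sameFieldCriterion_hold⟩,
    fun p a _ K _ _ _ π hπ => subsetCriterion_hold hπ,
    fun K _ _ _ q hq h1 h2 h3 => hasFlip_of_discr hq h1 h3 h2⟩

end Pool.Agent.H845.Orb
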