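import Mathlib
import Pool.Agent.H845.Orb.CritParts

/-!
# The criteria for families of Weil numbers without relations, short form
-/

set_option autoImplicit false

namespace Pool.Agent.H845.Orb

open NumberField Module Polynomial Pool.Agent.Y156.P Pool.Agent.H977R3.CM

/-- The criterion for the conjugates of the element `x` of the CM field `F`: if
`x * conj x = p ^ (a * w)` then `φ x` is free from the `π i` if and only if a positive power of
`x / conj x` is a product of powers of the numbers `ratio g`, `g` a factor over `F` of the minimal
polynomial of some `π i`, only if the exponents of `g` and of the complex conjugate of `g` are always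
the same (`OnlySymmetric`). -/
def EigenvalueCriterion (p a : ℕ) {I : Type} [Fintype I] {K : I → Type} [∀ i, Field (K i)]
    [∀ i, NumberField (K i)] (π : ∀ i, K i) {F : Type} [Field F] [NumberField F] [IsCMField F]
    (x : F) : Prop :=
  ∀ w : ℕ, x * IsCMField.complexConj F x = ((p : F) ^ a) ^ w → ∀ φ : F →+* ℂ,
    (FreeFrom (p ^ a) π (φ x) ↔ OnlySymmetric π x)

/-- The criteria for one family `π i` of Weil numbers for `p ^ a` in the CM fields `K i`, each
positive power of which generates its field.

* All `π i` are free (`IsFree`) if and only if there are no relations between the conjugates of the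
  `π i` except the trivial ones (the number `1` is free from the `π i`). Nothing is assumed on the
  fields: they may be dependent or equal.
* The number `π i` is free in the family if and only if for all exponents as in `IsFree` the equation
  fails for some `p`-adic absolute value of the field `K i`.
* If the fields `K i` are pairwise independent then `π i` is free in the family if and only if the
  family with the one member `π i` is free.
* If all `π i` are free, then a complex number unrelated to the fields `K i` (`Unrelated`) is free from
  the `π i`, and `EigenvalueCriterion` is true for all elements of all CM fields. -/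
def FamilyCriteriaShort (p a : ℕ) [Fact p.Prime] {I : Type} [Fintype I] {K : I → Type}
    [∀ i, Field (K i)] [∀ i, NumberField (K i)] [∀ i, IsCMField (K i)] (π : ∀ i, K i) : Prop :=
  ((∀ i, IsFree π i) ↔ FreeFrom (p ^ a) π 1) ∧
  (∀ i, (IsFree π i ↔ IsFreeAbs p π i (π i))) ∧
  (PairwiseIndep K → ∀ i, (IsFree π i ↔ IsFree (fun _ : Unit => π i) ())) ∧
  ((∀ i, IsFree π i) →
    (∀ ρ : ℂ, Pool.Agent.Y1.CT.Unrelated K ρ → FreeFrom (p ^ a) π ρ) ∧
    ∀ (F : Type) [Field F] [NumberField F] [IsCMField F] (x : F), EigenvalueCriterion p a π x)

/-- The criteria: for the families without relations and the numbers which are free from them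
(`FamilyCriteriaShort`), and for several Weil numbers in the same fields (`SameFieldCriterion`). A CM
field `K` has flips (`HasFlip`) if there is a prime number `q` which divides the discriminant of `K`
and whose square does not, and which does not divide the discriminant of the maximal real subfield. -/
def FreeCriteriaShort : Prop :=
  (∀ (p a : ℕ) [Fact p.Prime] (I : Type) [Fintype I] (K : I → Type) [∀ i, Field (K i)]
    [∀ i, NumberField (K i)] [∀ i, IsCMField (K i)],
    (∀ π : ∀ i, K i, (∀ i, IsSimpleWeil p a (π i)) → FamilyCriteriaShort p a π) ∧
      SameFieldCriterion p a K) ∧
  ∀ (K : Type) [Field K] [NumberField K] [IsCMField K] (q : ℕ), q.Prime → (q : ℤ) ∣ discr K →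
    ¬ (q : ℤ) ^ 2 ∣ discr K → ¬ (q : ℤ) ∣ discr (maximalRealSubfield K) → HasFlip K

end Pool.Agent.H845.Orb
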