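import Mathlib
import Pool.Agent.H845.Orb.ShortDefs
import Pool.Agent.H845.Orb.Main

/-!
# The criteria for families of Weil numbers without relations, short form: proofs
-/

set_option autoImplicit false
set_option linter.unusedSectionVars false
set_option linter.unusedVariables false

namespace Pool.Agent.H845.Orb

open NumberField Module Polynomial Pool.Agent.Y156.P Pool.Agent.H977R3.CM
open Pool.Agent.Y137.MV (MaximalAngleRank)
open scoped IntermediateField

theorem freeFrom_one_iff {p a : ℕ} [hp : Fact p.Prime] {I : Type} [Fintype I] {K : I → Type}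
    [∀ i, Field (K i)] [∀ i, NumberField (K i)] [∀ i, IsCMField (K i)] {π : ∀ i, K i}
    (h0 : ∀ i, π i ≠ 0) : FreeFrom (p ^ a) π 1 ↔ MaximalAngleRank (p ^ a) π := by
  constructor
  · intro h c n hrel i φ
    exact h.2 1 c n one_pos (by rw [one_pow, one_mul]; exact hrel) i φ
  · exact fun h => freeFrom_one h0 h

theorem freeCriteriaShort_hold : FreeCriteriaShort := by
  refine ⟨fun p a _ I _ K _ _ _ => ⟨fun π hπ => ?_, sameFieldCriterion_hold⟩,
    fun K _ _ _ q hq h1 h2 h3 => hasFlip_of_discr hq h1 h3 h2⟩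
  have hw : ∀ i, π i * IsCMField.complexConj (K i) (π i) = (p : K i) ^ a := fun i => (hπ i).weil
  obtain ⟨h1, h2, h3, h4⟩ := familyCriteria_hold hπ
  refine ⟨h1.trans (freeFrom_one_iff (pi_ne_zero hw)).symm, h2, h3, fun hfree => ?_⟩
  obtain ⟨h5, h6⟩ := h4 hfree
  exact ⟨h5, fun F _ _ _ x w hx φ => h6 F x w hx φ⟩

end Pool.Agent.H845.Orb
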